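import Mathlib.MeasureTheory.Function.LocallyIntegrable
import Mathlib.MeasureTheory.Integral.Bochner.Basic
import Mathlib.MeasureTheory.Measure.Haar.OfBasis
import Mathlib.LinearAlgebra.Complex.FiniteDimensional
import Mathlib.Analysis.Calculus.ContDiff.Defs
import Mathlib.Analysis.CStarAlgebra.Classes

set_option autoImplicit false

namespace Pool.Agent.MP_8a3eee_an

open MeasureTheory

/-- `f ∈ W^{1,1}_loc` with weak (distributional) derivative `D`. -/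
def IsWeakDeriv (f : ℂ → ℂ) (D : ℂ → ℂ →L[ℝ] ℂ) : Prop :=
  LocallyIntegrable f volume ∧ LocallyIntegrable D volume ∧
    ∀ φ : ℂ → ℝ, ContDiff ℝ (⊤ : ℕ∞) φ → HasCompactSupport φ → ∀ v : ℂ,
      ∫ z, fderiv ℝ φ z v • f z = -∫ z, φ z • D z v

/-- `f` has finite distortion, `D` being its weak derivative. -/
def FiniteDistortion (f : ℂ → ℂ) (D : ℂ → ℂ →L[ℝ] ℂ) : Prop :=
  IsWeakDeriv f D ∧ LocallyIntegrable (fun z => (D z).det) volume ∧
    ∃ K : ℂ → ℝ, Measurable K ∧ (∀ z, 1 ≤ K z) ∧ ∀ᵐ z, ‖D z‖ ^ 2 ≤ K z * (D z).det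

/-- The distortion function `K_f`. -/
noncomputable def distortion (D : ℂ → ℂ →L[ℝ] ℂ) (z : ℂ) : ℝ :=
  if 0 < (D z).det then ‖D z‖ ^ 2 / (D z).det else 1

/-- The domain `Ω_s` with an outward cusp. -/
def outCusp (s : ℝ) : Set ℂ :=
  {z | 0 < z.re ∧ z.re < 1 ∧ |z.im| < z.re ^ (1 + s)} ∪
    Metric.ball ((s + 2 : ℝ) : ℂ) (√((s + 1) ^ 2 + 1))

/-- The domain `G_s` with an inward cusp. -/
def inCusp (s : ℝ) : Set ℂ :=
  Metric.ball ((-s : ℝ) : ℂ) (√((s + 1) ^ 2 + 1)) \ {z | 0 ≤ z.re ∧ |z.im| ≤ z.re ^ (1 + s)}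

end Pool.Agent.MP_8a3eee_an
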