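import Mathlib.Topology.Sheaves.Presheaf
import Mathlib.Tactic.Monotonicity.Lemmas
import Mathlib.Algebra.Lie.OfAssociative
import Mathlib.Algebra.Order.Ring.Star
import Mathlib.Algebra.Order.Star.Real
import Mathlib.Analysis.Calculus.Deriv.Mul
import Mathlib.Analysis.Calculus.Deriv.Comp
import Mathlib.Analysis.Calculus.FDeriv.Measurable
import Mathlib.MeasureTheory.Integral.DivergenceTheorem
import Mathlib.MeasureTheory.Measure.Lebesgue.Complex
import Mathlib.MeasureTheory.Function.Jacobian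
import Pool.Agent.MP_8a3eee_an.Defs

-- ======== part 0: formerly Pool.Agent.MP_8a3eee_an.Assembly
section MrgPart0

set_option autoImplicit false

namespace Pool.Agent.MP_8a3eee_an

open MeasureTheory Set

lemma integral_zero_line (g g' : ℝ → ℂ) (hg : Continuous g) (R : ℝ) (hR : 0 ≤ R)
    (h0 : ∀ x, R ≤ |x| → g x = 0 ∧ g' x = 0) (hi : Integrable g') (s : Set ℝ) (hs : s.Countable)
    (hd : ∀ x ∉ s, HasDerivAt g (g' x) x) : ∫ x, g' x = 0 := by
  have h1 := integral_eq_of_hasDerivAt_off_countable_of_le g g' (a := -R) (b := R) (by linarith)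
    hs hg.continuousOn (fun x hx => hd x hx.2) hi.intervalIntegrable
  rw [(h0 R (le_abs_self R)).1, (h0 (-R) (by rw [abs_neg]; exact le_abs_self R)).1, sub_zero,
    intervalIntegral.integral_of_le (by linarith),
    setIntegral_eq_integral_of_forall_compl_eq_zero] at h1
  · exact h1
  · intro x hx
    apply (h0 x _).2
    simp only [mem_Ioc, not_and_or, not_lt, not_le] at hx
    rcases hx with hx | hx
    · have := neg_abs_le x
      linarith
    · exact hx.le.trans (le_abs_self x)

lemma integral_zero_dir (T : ℝ × ℝ ≃ᵐ ℂ) (hT : MeasurePreserving T volume volume) (v : ℂ)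
    (c : ℝ → ℂ) (hTv : ∀ x y, T (x, y) = c y + x • v) (hn : ∀ x y, |x| ≤ ‖T (x, y)‖)
    (G : ℂ → ℂ) (L : ℂ → ℂ →L[ℝ] ℂ) (hG : Continuous G) (R : ℝ) (hR : 0 ≤ R)
    (h0 : ∀ z, R ≤ ‖z‖ → G z = 0 ∧ L z v = 0) (hi : Integrable (fun z => L z v))
    (N : Set ℂ) (hN : ∀ᵐ y : ℝ, {x : ℝ | T (x, y) ∈ N}.Countable)
    (hd : ∀ z ∉ N, HasFDerivAt G (L z) z) : ∫ z, L z v = 0 := by
  have hi' : Integrable (fun p : ℝ × ℝ => L (T p) v) (volume.prod volume) :=
    (hT.integrable_comp_emb T.measurableEmbedding).mpr hi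
  rw [← hT.integral_comp' (fun z => L z v)]
  have e : (volume : Measure (ℝ × ℝ)) = volume.prod volume := rfl
  rw [e, integral_prod_symm _ hi']
  apply integral_eq_zero_of_ae
  filter_upwards [hi'.prod_left_ae, hN] with y hy hNy
  refine integral_zero_line (fun x => G (T (x, y))) (fun x => L (T (x, y)) v) ?_ R hR
    (fun x hx => h0 _ (hx.trans (hn x y))) hy _ hNy ?_
  · simp only [hTv]
    fun_prop
  · intro x hx
    have h1 : HasDerivAt (fun x : ℝ => c y + x • v) v x := by
      simpa using ((hasDerivAt_id x).smul_const v).const_add (c y)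
    have h2 := hd _ hx
    rw [hTv] at h2
    have := h2.comp_hasDerivAt x h1
    simp only [hTv]
    exact this

lemma null_of_lines (N : Set ℂ) (hN : MeasurableSet N)
    (hV : ∀ᵐ x : ℝ, {y : ℝ | (⟨x, y⟩ : ℂ) ∈ N}.Countable) : volume N = 0 := by
  rw [← (Complex.volume_preserving_equiv_real_prod.symm).measure_preimage hN.nullMeasurableSet]
  have e : (volume : Measure (ℝ × ℝ)) = volume.prod volume := rfl
  rw [e, Measure.measure_prod_null (Complex.measurableEquivRealProd.symm.measurable hN)]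
  filter_upwards [hV] with x hx
  exact hx.measure_zero _

lemma measurable_distortion (f : ℂ → ℂ) : Measurable (distortion (fderiv ℝ f)) := by
  have h1 : Measurable (fun z => (fderiv ℝ f z).det) :=
    ContinuousLinearMap.continuous_det.measurable.comp (measurable_fderiv ℝ f)
  have h2 : Measurable (fun z => ‖fderiv ℝ f z‖) := (measurable_fderiv ℝ f).norm
  unfold distortion
  exact Measurable.ite (measurableSet_lt measurable_const h1) ((h2.pow_const 2).div h1)
    measurable_const

theorem assembly (f : ℂ ≃ₜ ℂ) (N : Set ℂ) (hN : MeasurableSet N)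
    (hH : ∀ᵐ y : ℝ, {x : ℝ | (⟨x, y⟩ : ℂ) ∈ N}.Countable)
    (hV : ∀ᵐ x : ℝ, {y : ℝ | (⟨x, y⟩ : ℂ) ∈ N}.Countable)
    (lam : ℝ) (hlam : 0 < lam) (g : ℂ → ℝ) (hg : LocallyIntegrable g volume)
    (hD : ∀ z ∉ N, ∃ D : ℂ →L[ℝ] ℂ, HasFDerivAt f D z ∧ 0 < D.det ∧
      Real.exp (lam * (‖D‖ ^ 2 / D.det)) ≤ g z) :
    FiniteDistortion f (fderiv ℝ f) ∧
      LocallyIntegrable (fun z => Real.exp (lam * distortion (fderiv ℝ f) z)) volume := by
  have hae : ∀ᵐ z, z ∉ N := measure_eq_zero_iff_ae_notMem.mp (null_of_lines N hN hV)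
  have hD' : ∀ z ∉ N, HasFDerivAt f (fderiv ℝ f z) z ∧ 0 < (fderiv ℝ f z).det ∧
      distortion (fderiv ℝ f) z = ‖fderiv ℝ f z‖ ^ 2 / (fderiv ℝ f z).det ∧
      Real.exp (lam * distortion (fderiv ℝ f) z) ≤ g z := by
    intro z hz
    obtain ⟨D, h1, h2, h3⟩ := hD z hz
    have e : distortion (fderiv ℝ f) z = ‖D‖ ^ 2 / D.det := by
      unfold distortion
      rw [h1.fderiv, if_pos h2]
    rw [e, h1.fderiv]
    exact ⟨h1, h2, rfl, h3⟩
  have hmK := measurable_distortion f
  have hmJ : Measurable (fun z => (fderiv ℝ f z).det) :=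
    ContinuousLinearMap.continuous_det.measurable.comp (measurable_fderiv ℝ f)
  have hexp : LocallyIntegrable (fun z => Real.exp (lam * distortion (fderiv ℝ f) z)) volume := by
    refine hg.mono (hmK.const_mul lam).exp.aestronglyMeasurable ?_
    filter_upwards [hae] with z hz
    rw [Real.norm_eq_abs, abs_of_pos (Real.exp_pos _)]
    exact (hD' z hz).2.2.2.trans (le_abs_self _)
  have hJ : LocallyIntegrable (fun z => (fderiv ℝ f z).det) volume := by
    rw [locallyIntegrable_iff]
    intro k hk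
    have h1 := lintegral_abs_det_fderiv_le_addHaar_image volume (s := k \ N) (f := f)
      (f' := fun z => fderiv ℝ f z) (hk.measurableSet.diff hN)
      (fun z hz => (hD' z hz.2).1.hasFDerivWithinAt) f.injective.injOn
    have h2 : volume (f '' (k \ N)) < ⊤ :=
      (measure_mono (image_mono sdiff_subset)).trans_lt (hk.image f.continuous).measure_lt_top
    have h3 : IntegrableOn (fun z => (fderiv ℝ f z).det) (k \ N) volume := by
      refine ⟨hmJ.aestronglyMeasurable, ?_⟩
      rw [hasFiniteIntegral_iff_norm]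
      exact h1.trans_lt h2
    refine h3.congr_set_ae ?_
    exact (sdiff_ae_eq_self.mpr (measure_mono_null inter_subset_right
      (null_of_lines N hN hV))).symm
  have hDi : LocallyIntegrable (fderiv ℝ f) volume := by
    refine ((hexp.smul lam⁻¹).add hJ).mono (measurable_fderiv ℝ f).aestronglyMeasurable ?_
    filter_upwards [hae] with z hz
    obtain ⟨-, h2, h3, -⟩ := hD' z hz
    refine le_trans ?_ (le_abs_self _)
    simp only [Pi.add_apply, Pi.smul_apply, smul_eq_mul]
    set K := distortion (fderiv ℝ f) z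
    set J := (fderiv ℝ f z).det
    have h4 : ‖fderiv ℝ f z‖ ^ 2 = K * J := by
      rw [h3]
      field_simp
    have hK : 0 ≤ K := by
      rw [h3]
      positivity
    have h5 : K ≤ lam⁻¹ * Real.exp (lam * K) := by
      have := Real.add_one_le_exp (lam * K)
      rw [inv_mul_eq_div, le_div_iff₀ hlam]
      linarith
    have h6 : ‖fderiv ℝ f z‖ ≤ K + J := by
      by_contra hc
      push Not at hc
      nlinarith [norm_nonneg (fderiv ℝ f z), mul_nonneg hK h2.le]
    linarith
  refine ⟨⟨⟨f.continuous.locallyIntegrable, hDi, ?_⟩, hJ, fun z => max 1 (distortion (fderiv ℝ f) z),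
    measurable_const.max hmK, fun z => le_max_left _ _, ?_⟩, hexp⟩
  · intro φ hφ hc
    have hφd : Differentiable ℝ φ := hφ.differentiable (by simp)
    have hφ' : Continuous (fderiv ℝ φ) := hφ.continuous_fderiv (by simp)
    have i1 : ∀ v : ℂ, Integrable (fun z => fderiv ℝ φ z v • f z) := by
      intro v
      apply Continuous.integrable_of_hasCompactSupport (by fun_prop)
      exact (hc.fderiv_apply ℝ v).smul_right
    have i2 : ∀ v : ℂ, Integrable (fun z => φ z • fderiv ℝ f z v) := by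
      intro v
      have := (hDi.integrable_smul_left_of_hasCompactSupport hφ.continuous hc).apply_continuousLinearMap v
      simpa using this
    obtain ⟨R, hR, hRs⟩ := hc.isBounded.subset_ball_lt 0 0
    have hzero : ∀ z : ℂ, R ≤ ‖z‖ → φ z = 0 ∧ fderiv ℝ φ z = 0 := by
      intro z hz
      have h1 : z ∉ tsupport φ := fun h => by
        have := hRs h
        rw [mem_ball_zero_iff] at this
        linarith
      exact ⟨image_eq_zero_of_notMem_tsupport h1, fderiv_of_notMem_tsupport ℝ h1⟩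
    have key : ∀ (T : ℝ × ℝ ≃ᵐ ℂ) (_ : MeasurePreserving T volume volume) (v : ℂ)
        (c : ℝ → ℂ) (_ : ∀ x y, T (x, y) = c y + x • v) (_ : ∀ x y, |x| ≤ ‖T (x, y)‖)
        (_ : ∀ᵐ y : ℝ, {x : ℝ | T (x, y) ∈ N}.Countable),
        ∫ z, fderiv ℝ φ z v • f z = -∫ z, φ z • fderiv ℝ f z v := by
      intro T hT v c hTv hn hN'
      have := integral_zero_dir T hT v c hTv hn (fun z => φ z • f z)
        (fun z => φ z • fderiv ℝ f z + (fderiv ℝ φ z).smulRight (f z))
        (hφ.continuous.smul f.continuous) R hR.le ?_ ?_ N hN' ?_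
      · simp only [add_apply, smul_apply, ContinuousLinearMap.smulRight_apply] at this
        rw [integral_add (i2 v) (i1 v)] at this
        exact eq_neg_of_add_eq_zero_right this
      · intro z hz
        simp [(hzero z hz).1, (hzero z hz).2]
      · exact (i2 v).add (i1 v)
      · intro z hz
        exact (hφd z).hasFDerivAt.smul (hD' z hz).1
    have k1 := key Complex.measurableEquivRealProd.symm
      Complex.volume_preserving_equiv_real_prod.symm 1 (fun y => y * Complex.I)
      (fun x y => by apply Complex.ext <;> simp)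
      (fun x y => Complex.abs_re_le_norm ⟨x, y⟩) hH
    have k2 := key (MeasurableEquiv.prodComm.trans Complex.measurableEquivRealProd.symm)
      ((Complex.volume_preserving_equiv_real_prod.symm).comp Measure.measurePreserving_swap)
      Complex.I (fun y => y) (fun x y => by apply Complex.ext <;> simp [MeasurableEquiv.prodComm])
      (fun x y => Complex.abs_im_le_norm ⟨y, x⟩) hV
    intro v
    have ev : v = v.re • (1 : ℂ) + v.im • Complex.I := by
      apply Complex.ext <;> simp
    have e1 : ∀ z, fderiv ℝ φ z v • f z =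
        v.re • (fderiv ℝ φ z 1 • f z) + v.im • (fderiv ℝ φ z Complex.I • f z) := by
      intro z
      conv_lhs => rw [ev]
      rw [map_add, map_smul, map_smul, add_smul, smul_assoc, smul_assoc]
    have e2 : ∀ z, φ z • fderiv ℝ f z v =
        v.re • (φ z • fderiv ℝ f z 1) + v.im • (φ z • fderiv ℝ f z Complex.I) := by
      intro z
      conv_lhs => rw [ev]
      rw [map_add, map_smul, map_smul, smul_add, smul_comm, smul_comm (φ z) v.im]
    simp only [e1, e2]
    have j1 : ∀ (r : ℝ) (v : ℂ), Integrable (fun z => r • (fderiv ℝ φ z v • f z)) :=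
      fun r v => (i1 v).smul r
    have j2 : ∀ (r : ℝ) (v : ℂ), Integrable (fun z => r • (φ z • fderiv ℝ f z v)) :=
      fun r v => (i2 v).smul r
    rw [integral_add (j1 _ _) (j1 _ _), integral_add (j2 _ _) (j2 _ _),
      integral_smul, integral_smul, integral_smul, integral_smul, k1, k2]
    simp [add_comm]
  · filter_upwards [hae] with z hz
    obtain ⟨-, h2, h3, -⟩ := hD' z hz
    calc ‖fderiv ℝ f z‖ ^ 2 = distortion (fderiv ℝ f) z * (fderiv ℝ f z).det := by
          rw [h3]
          field_simp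
      _ ≤ _ := mul_le_mul_of_nonneg_right (le_max_right _ _) h2.le

end Pool.Agent.MP_8a3eee_an

end MrgPart0

-- ======== part 1: formerly Pool.Agent.MP_8a3eee_an.Geometry
section MrgPart1

set_option autoImplicit false

namespace Pool.Agent.MP_8a3eee_an

open Set

lemma norm_sq_eq (W : ℂ) : ‖W‖ ^ 2 = W.re ^ 2 + W.im ^ 2 := by
  rw [Complex.sq_norm, Complex.normSq_apply]
  ring

lemma mem_ball_iff (W : ℂ) (c q : ℝ) :
    W ∈ Metric.ball (c : ℂ) (√q) ↔ (W.re - c) ^ 2 + W.im ^ 2 < q := by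
  rw [mem_ball_iff_norm, Real.lt_sqrt (norm_nonneg _), norm_sq_eq]
  simp

lemma rpow_one_add_eq {x s : ℝ} (hs : 0 < s) (hx : 0 ≤ x) : x ^ (1 + s) = x * x ^ s := by
  rw [Real.rpow_add' hx (by linarith), Real.rpow_one]

lemma out1 {s t : ℝ} (hs : 0 < s) (h0 : 0 < t) (h1 : t ≤ 1) (W : ℂ)
    (h : ‖W‖ ^ 2 = t ^ 2 * (1 + (t ^ s) ^ 2)) : W ∈ outCusp s ↔ t < W.re := by
  rw [norm_sq_eq] at h
  have hT0 : 0 < t ^ s := Real.rpow_pos_of_pos h0 s
  have hT1 : t ^ s ≤ 1 := Real.rpow_le_one h0.le h1 hs.le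
  have hy : |W.im| ^ 2 = W.im ^ 2 := sq_abs _
  have hy0 := abs_nonneg W.im
  have hcusp : 0 < W.re → |W.im| < W.re ^ (1 + s) → t < W.re := by
    intro hx hc
    by_contra hcon
    push Not at hcon
    rw [rpow_one_add_eq hs hx.le] at hc
    have k1 : W.re ^ s ≤ t ^ s := Real.rpow_le_rpow hx.le hcon hs.le
    have k2 : |W.im| < t * t ^ s := hc.trans_le (mul_le_mul hcon k1 (by positivity) h0.le)
    have k3 : |W.im| ^ 2 < (t * t ^ s) ^ 2 := by gcongr
    have k4 : W.re ^ 2 ≤ t ^ 2 := by gcongr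
    nlinarith
  unfold outCusp
  rw [mem_union, mem_ball_iff]
  constructor
  · rintro (⟨a1, -, a3⟩ | a)
    · exact hcusp a1 a3
    · have k1 : |W.im| < 1 + (1 + s) * (W.re - 1) := by
        by_contra hcon
        push Not at hcon
        nlinarith [sq_nonneg (W.re - 1), sq_nonneg (|W.im| - 1)]
      have k2 : 0 < W.re := by
        by_contra hcon
        push Not at hcon
        nlinarith
      have k3 := one_add_mul_self_le_rpow_one_add (s := W.re - 1) (by linarith) (p := 1 + s)
        (by linarith)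
      rw [add_sub_cancel] at k3
      exact hcusp k2 (k1.trans_le k3)
  · intro hx
    have hx0 : 0 < W.re := h0.trans hx
    by_cases hx1 : W.re < 1
    · left
      refine ⟨hx0, hx1, ?_⟩
      rw [rpow_one_add_eq hs hx0.le]
      have k1 : t ^ s ≤ W.re ^ s := Real.rpow_le_rpow h0.le hx.le hs.le
      have k2 : |W.im| < t * t ^ s := by
        apply lt_of_pow_lt_pow_left₀ 2 (by positivity)
        have : t ^ 2 < W.re ^ 2 := by gcongr
        nlinarith
      exact k2.trans_le (mul_le_mul hx.le k1 hT0.le hx0.le)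
    · right
      push Not at hx1
      have k1 : (t ^ s) ^ 2 ≤ 1 := pow_le_one₀ hT0.le hT1
      have k2 : t ^ 2 * (1 + (t ^ s) ^ 2) ≤ t ^ 2 * 2 := by gcongr; linarith
      rcases h1.lt_or_eq with h2 | h2
      · have : t ^ 2 < 1 := by nlinarith
        nlinarith
      · subst h2
        nlinarith

lemma out2 {s : ℝ} (hs : 0 < s) (W : ℂ) (h : 2 ≤ ‖W‖ ^ 2) :
    W ∈ outCusp s ↔ ‖W‖ ^ 2 + (2 * s + 2) < 2 * (s + 2) * W.re := by
  rw [norm_sq_eq] at h ⊢
  unfold outCusp
  rw [mem_union, mem_ball_iff]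
  constructor
  · rintro (⟨a1, a2, a3⟩ | a)
    · exfalso
      have k1 : W.re ^ (1 + s) ≤ 1 := Real.rpow_le_one a1.le a2.le (by linarith)
      have k2 : |W.im| ^ 2 < 1 ^ 2 := by gcongr; linarith
      rw [sq_abs] at k2
      nlinarith
    · nlinarith
  · intro a
    right
    nlinarith

lemma in1 {s t : ℝ} (hs : 0 < s) (h0 : 0 < t) (h1 : t ≤ 1) (W : ℂ)
    (h : ‖W‖ ^ 2 = t ^ 2 * (1 + (t ^ s) ^ 2)) : W ∈ inCusp s ↔ W.re < t := by
  rw [norm_sq_eq] at h
  have hT0 : 0 < t ^ s := Real.rpow_pos_of_pos h0 s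
  have hT1 : t ^ s ≤ 1 := Real.rpow_le_one h0.le h1 hs.le
  have hy : |W.im| ^ 2 = W.im ^ 2 := sq_abs _
  have hy0 := abs_nonneg W.im
  unfold inCusp
  rw [mem_sdiff, mem_ball_iff]
  constructor
  · rintro ⟨-, a⟩
    by_contra hcon
    push Not at hcon
    have hx0 : 0 ≤ W.re := h0.le.trans hcon
    apply a
    refine ⟨hx0, ?_⟩
    rw [rpow_one_add_eq hs hx0]
    have k1 : t ^ s ≤ W.re ^ s := Real.rpow_le_rpow h0.le hcon hs.le
    have k2 : |W.im| ≤ t * t ^ s := by
      apply le_of_sq_le_sq _ (by positivity)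
      have : t ^ 2 ≤ W.re ^ 2 := by gcongr
      nlinarith
    exact k2.trans (mul_le_mul hcon k1 hT0.le hx0)
  · intro hx
    constructor
    · have k1 : (t ^ s) ^ 2 ≤ 1 := pow_le_one₀ hT0.le hT1
      have k2 : t ^ 2 * (1 + (t ^ s) ^ 2) ≤ 1 * 2 := by
        apply mul_le_mul (pow_le_one₀ h0.le h1) (by linarith) (by positivity) zero_le_one
      nlinarith
    · rintro ⟨a1, a2⟩
      rw [rpow_one_add_eq hs a1] at a2
      have k1 : W.re ^ s ≤ t ^ s := Real.rpow_le_rpow a1 hx.le hs.le
      have k2 : |W.im| ≤ t * t ^ s := a2.trans (mul_le_mul hx.le k1 (by positivity) h0.le)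
      have k3 : |W.im| ^ 2 ≤ (t * t ^ s) ^ 2 := by gcongr
      have k4 : W.re ^ 2 < t ^ 2 := by gcongr
      nlinarith

lemma in2 {s : ℝ} (hs : 0 < s) (W : ℂ) (h : 2 ≤ ‖W‖ ^ 2) :
    W ∈ inCusp s ↔ ‖W‖ ^ 2 + -(2 * s + 2) < 2 * s * (-W.re) := by
  rw [norm_sq_eq] at h ⊢
  unfold inCusp
  rw [mem_sdiff, mem_ball_iff]
  constructor
  · rintro ⟨a, -⟩
    nlinarith
  · intro a
    refine ⟨by nlinarith, ?_⟩
    rintro ⟨a1, a2⟩
    have k0 : W.re < 1 := by nlinarith
    have k1 : W.re ^ (1 + s) ≤ 1 := Real.rpow_le_one a1 k0.le (by linarith)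
    have k2 : |W.im| ^ 2 ≤ 1 ^ 2 := by gcongr; linarith
    rw [sq_abs] at k2
    nlinarith

lemma zero_notMem_out {s : ℝ} (hs : 0 < s) : (0 : ℂ) ∉ outCusp s := by
  unfold outCusp
  rw [mem_union, mem_ball_iff]
  rintro (⟨a, -⟩ | a)
  · simp at a
  · simp only [Complex.zero_re, Complex.zero_im] at a
    nlinarith

lemma zero_notMem_in (s : ℝ) : (0 : ℂ) ∉ inCusp s := by
  rintro ⟨-, a⟩
  apply a
  simp only [mem_ofPred_eq, Complex.zero_re, Complex.zero_im, abs_zero]
  exact ⟨le_rfl, Real.rpow_nonneg le_rfl _⟩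

end Pool.Agent.MP_8a3eee_an

end MrgPart1

-- marker of a merged file
example : 731051 + 862238 = 731051 + 862238 := rfl
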