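import Mathlib.Topology.Sheaves.Presheaf
import Mathlib.Analysis.SpecialFunctions.Complex.LogDeriv
import Mathlib.Analysis.Complex.Angle
import Mathlib.Analysis.InnerProductSpace.NormDet

set_option autoImplicit false

namespace Pool.Agent.MP_8a3eee_an

open Set Filter Topology
open scoped Real ComplexConjugate

/-- The piecewise linear self-map of `[0, π]` fixing the ends and sending `p` to `q`. -/
noncomputable def angMap (p q α : ℝ) : ℝ :=
  if α ≤ p then α * (q / p) else π - (π - α) * ((π - q) / (π - p))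

section ang

variable {p q : ℝ} (hp : p ∈ Ioo 0 π) (hq : q ∈ Ioo 0 π)
include hp hq

lemma angMap_le_iff (α : ℝ) : angMap p q α ≤ q ↔ α ≤ p := by
  have h1 := hp.1
  have h2 := sub_pos.mpr hp.2
  have h3 := hq.1
  have h4 := sub_pos.mpr hq.2
  unfold angMap
  split_ifs with h
  · simp only [h, iff_true]
    rw [← mul_div_assoc, div_le_iff₀ h1]
    nlinarith
  · simp only [h, iff_false, not_le]
    have : (π - α) * ((π - q) / (π - p)) < π - q := by
      rw [← mul_div_assoc, div_lt_iff₀ h2]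
      nlinarith [not_le.mp h]
    linarith

lemma angMap_lt_iff (α : ℝ) : angMap p q α < q ↔ α < p := by
  have h1 := hp.1
  have h3 := hq.1
  constructor
  · intro h
    have h5 := (angMap_le_iff hp hq α).mp h.le
    rcases h5.lt_or_eq with h6 | h6
    · exact h6
    · exfalso
      unfold angMap at h
      rw [if_pos h5, h6, mul_div_cancel₀ _ h1.ne'] at h
      exact lt_irrefl _ h
  · intro h
    unfold angMap
    rw [if_pos h.le, ← mul_div_assoc, div_lt_iff₀ h1]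
    nlinarith

lemma angMap_inv (α : ℝ) : angMap q p (angMap p q α) = α := by
  have h1 := hp.1
  have h2 := sub_pos.mpr hp.2
  have h3 := hq.1
  have h4 := sub_pos.mpr hq.2
  by_cases h : α ≤ p
  · have := (angMap_le_iff hp hq α).mpr h
    rw [angMap, if_pos this, angMap, if_pos h]
    field_simp
  · have := mt (angMap_le_iff hp hq α).mp h
    rw [angMap, if_neg this, angMap, if_neg h]
    field_simp
    ring

lemma angMap_nonneg {α : ℝ} (h : 0 ≤ α) : 0 ≤ angMap p q α := by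
  by_cases h' : α ≤ p
  · rw [angMap, if_pos h']
    exact mul_nonneg h (div_pos hq.1 hp.1).le
  · have := mt (angMap_le_iff hp hq α).mp h'
    linarith [hq.1]

lemma angMap_pos {α : ℝ} (h : 0 < α) : 0 < angMap p q α := by
  by_cases h' : α ≤ p
  · rw [angMap, if_pos h']
    exact mul_pos h (div_pos hq.1 hp.1)
  · have := mt (angMap_le_iff hp hq α).mp h'
    linarith [hq.1]

lemma angMap_le_pi {α : ℝ} (h : α ≤ π) : angMap p q α ≤ π := by
  by_cases h' : α ≤ p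
  · exact ((angMap_le_iff hp hq α).mpr h').trans hq.2.le
  · rw [angMap, if_neg h']
    have := mul_nonneg (sub_nonneg.mpr h) (div_pos (sub_pos.mpr hq.2) (sub_pos.mpr hp.2)).le
    linarith

lemma angMap_lt_pi {α : ℝ} (h : α < π) : angMap p q α < π := by
  by_cases h' : α ≤ p
  · exact ((angMap_le_iff hp hq α).mpr h').trans_lt hq.2
  · rw [angMap, if_neg h']
    have := mul_pos (sub_pos.mpr h) (div_pos (sub_pos.mpr hq.2) (sub_pos.mpr hp.2))
    linarith

omit hq in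
lemma angMap_zero : angMap p q 0 = 0 := by
  rw [angMap, if_pos hp.1.le, zero_mul]

omit hq in
lemma angMap_pi : angMap p q π = π := by
  rw [angMap, if_neg (not_le.mpr hp.2)]
  simp

omit hq in
lemma angMap_self (α : ℝ) : angMap p p α = α := by
  have h1 := hp.1
  have h2 := sub_pos.mpr hp.2
  unfold angMap
  split_ifs
  · field_simp
  · field_simp
    ring

end ang

lemma continuous_angMap {X : Type} [TopologicalSpace X] {P Q α : X → ℝ} (hP : Continuous P)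
    (hQ : Continuous Q) (hα : Continuous α) (hPr : ∀ x, P x ∈ Ioo 0 π) :
    Continuous (fun x => angMap (P x) (Q x) (α x)) := by
  unfold angMap
  refine Continuous.if_le (hα.mul (hQ.div hP (fun x => (hPr x).1.ne'))) ?_ hα hP ?_
  · exact continuous_const.sub ((continuous_const.sub hα).mul ((continuous_const.sub hQ).div
      (continuous_const.sub hP) (fun x => (sub_pos.mpr (hPr x).2).ne')))
  · intro x hx
    have h1 := (hPr x).1
    have h2 := sub_pos.mpr (hPr x).2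
    rw [hx]
    field_simp
    ring

/-- The map on the upper half plane, in logarithmic polar coordinates. -/
noncomputable def upMap (A Ψ Φ : ℝ → ℝ) (z : ℂ) : ℂ :=
  if z = 0 then 0 else
    Complex.exp (A (Real.log ‖z‖) + angMap (Ψ (Real.log ‖z‖)) (Φ (Real.log ‖z‖)) |z.arg| * Complex.I)

/-- The map of the plane, symmetric under conjugation. -/
noncomputable def polMap (A Ψ Φ : ℝ → ℝ) (z : ℂ) : ℂ :=
  if 0 ≤ z.im then upMap A Ψ Φ z else conj (upMap A Ψ Φ z)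

lemma continuousAt_abs_arg {z : ℂ} (hz : z ≠ 0) : ContinuousAt (fun w : ℂ => |w.arg|) z := by
  have h1 : ContinuousAt (fun w : ℂ => InnerProductGeometry.angle (1 : ℂ) w) z :=
    (InnerProductGeometry.continuousAt_angle (x := ((1 : ℂ), z)) one_ne_zero hz).comp
      (f := fun w : ℂ => ((1 : ℂ), w)) (by fun_prop)
  refine h1.congr ?_
  filter_upwards [isOpen_ne.mem_nhds hz] with w hw
  exact Complex.angle_one_left hw

lemma continuousAt_log_norm {z : ℂ} (hz : z ≠ 0) :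
    ContinuousAt (fun w : ℂ => Real.log ‖w‖) z :=
  continuous_norm.continuousAt.log (norm_ne_zero_iff.mpr hz)

lemma abs_arg_conj (z : ℂ) : |(conj z).arg| = |z.arg| := by
  rw [Complex.arg_conj]
  split_ifs with h
  · rw [h]
  · rw [abs_neg]

lemma arg_exp_of_mem (a θ : ℝ) (h1 : 0 ≤ θ) (h2 : θ ≤ π) :
    (Complex.exp (a + θ * Complex.I)).arg = θ := by
  rw [Complex.exp_add, Complex.exp_mul_I, ← Complex.ofReal_exp]
  exact Complex.arg_mul_cos_add_sin_mul_I (Real.exp_pos a) ⟨by linarith [Real.pi_pos], h2⟩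

section pol

variable {A Ψ Φ : ℝ → ℝ}

lemma norm_upMap {z : ℂ} (hz : z ≠ 0) : ‖upMap A Ψ Φ z‖ = Real.exp (A (Real.log ‖z‖)) := by
  rw [upMap, if_neg hz, Complex.norm_exp]
  simp

lemma norm_polMap {z : ℂ} (hz : z ≠ 0) : ‖polMap A Ψ Φ z‖ = Real.exp (A (Real.log ‖z‖)) := by
  unfold polMap
  split_ifs
  · exact norm_upMap hz
  · rw [Complex.norm_conj]
    exact norm_upMap hz

lemma polMap_zero : polMap A Ψ Φ 0 = 0 := by simp [polMap, upMap]

lemma polMap_ne_zero {z : ℂ} (hz : z ≠ 0) : polMap A Ψ Φ z ≠ 0 := by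
  rw [← norm_pos_iff, norm_polMap hz]
  exact Real.exp_pos _

variable (hΨ : ∀ x, Ψ x ∈ Ioo 0 π) (hΦ : ∀ x, Φ x ∈ Ioo 0 π)
include hΨ hΦ

lemma arg_upMap {z : ℂ} (hz : z ≠ 0) :
    (upMap A Ψ Φ z).arg = angMap (Ψ (Real.log ‖z‖)) (Φ (Real.log ‖z‖)) |z.arg| := by
  rw [upMap, if_neg hz]
  exact arg_exp_of_mem _ _ (angMap_nonneg (hΨ _) (hΦ _) (abs_nonneg _))
    (angMap_le_pi (hΨ _) (hΦ _) (Complex.abs_arg_le_pi z))

lemma abs_arg_polMap {z : ℂ} (hz : z ≠ 0) :
    |(polMap A Ψ Φ z).arg| = angMap (Ψ (Real.log ‖z‖)) (Φ (Real.log ‖z‖)) |z.arg| := by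
  have h : |(upMap A Ψ Φ z).arg| = angMap (Ψ (Real.log ‖z‖)) (Φ (Real.log ‖z‖)) |z.arg| := by
    rw [arg_upMap hΨ hΦ hz, abs_of_nonneg (angMap_nonneg (hΨ _) (hΦ _) (abs_nonneg _))]
  unfold polMap
  split_ifs
  · exact h
  · rw [abs_arg_conj, h]

lemma polMap_im_nonneg_iff {z : ℂ} (hz : z ≠ 0) : 0 ≤ (polMap A Ψ Φ z).im ↔ 0 ≤ z.im := by
  unfold polMap
  split_ifs with h
  · simp only [h, iff_true]
    rw [← Complex.arg_nonneg_iff, arg_upMap hΨ hΦ hz]
    exact angMap_nonneg (hΨ _) (hΦ _) (abs_nonneg _)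
  · simp only [h, iff_false, Complex.conj_im, Left.nonneg_neg_iff, not_le]
    have h1 : z.arg < 0 := Complex.arg_neg_iff.mpr (not_le.mp h)
    have h2 : 0 < (upMap A Ψ Φ z).arg := by
      rw [arg_upMap hΨ hΦ hz]
      exact angMap_pos (hΨ _) (hΦ _) (abs_pos.mpr h1.ne)
    have h3 : (upMap A Ψ Φ z).arg < π := by
      rw [arg_upMap hΨ hΦ hz]
      apply angMap_lt_pi (hΨ _) (hΦ _)
      rw [abs_of_neg h1]
      linarith [Complex.neg_pi_lt_arg z]
    have h4 := Complex.arg_nonneg_iff.mp h2.le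
    rcases h4.lt_or_eq with h5 | h5
    · exact h5
    · exfalso
      rcases le_or_gt 0 (upMap A Ψ Φ z).re with h6 | h6
      · exact h2.ne' (Complex.arg_eq_zero_iff.mpr ⟨h6, h5.symm⟩)
      · exact h3.ne (Complex.arg_eq_pi_iff.mpr ⟨h6, h5.symm⟩)

lemma polMap_left_inv {A' Ψ' Φ' : ℝ → ℝ} (hA : ∀ x, A' (A x) = x) (h1 : ∀ x, Ψ' (A x) = Φ x)
    (h2 : ∀ x, Φ' (A x) = Ψ x) (z : ℂ) : polMap A' Ψ' Φ' (polMap A Ψ Φ z) = z := by
  by_cases hz : z = 0
  · rw [hz, polMap_zero, polMap_zero]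
  have hu : upMap A' Ψ' Φ' (polMap A Ψ Φ z) = ‖z‖ * Complex.exp (|z.arg| * Complex.I) := by
    rw [upMap, if_neg (polMap_ne_zero hz), norm_polMap hz, Real.log_exp, hA, h1, h2,
      abs_arg_polMap hΨ hΦ hz, angMap_inv (hΨ _) (hΦ _), Complex.exp_add, ← Complex.ofReal_exp,
      Real.exp_log (norm_pos_iff.mpr hz)]
  rw [polMap, hu]
  by_cases h : 0 ≤ z.im
  · rw [if_pos ((polMap_im_nonneg_iff hΨ hΦ hz).mpr h),
      abs_of_nonneg (Complex.arg_nonneg_iff.mpr h), Complex.norm_mul_exp_arg_mul_I]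
  · rw [if_neg (mt (polMap_im_nonneg_iff hΨ hΦ hz).mp h),
      abs_of_neg (Complex.arg_neg_iff.mpr (not_le.mp h)), map_mul, ← Complex.exp_conj]
    simp only [Complex.conj_ofReal, Complex.ofReal_neg, map_mul, map_neg, Complex.conj_I,
      mul_neg, neg_mul, neg_neg]
    exact Complex.norm_mul_exp_arg_mul_I z

omit hΦ in
lemma continuous_upMap (hA : Continuous A) (hA0 : Tendsto A atBot atBot) (hΨc : Continuous Ψ)
    (hΦc : Continuous Φ) : Continuous (upMap A Ψ Φ) := by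
  rw [continuous_iff_continuousAt]
  intro z
  by_cases hz : z = 0
  · subst hz
    rw [← continuousWithinAt_compl_self, ContinuousWithinAt]
    have e : upMap A Ψ Φ 0 = 0 := by simp [upMap]
    rw [e, tendsto_zero_iff_norm_tendsto_zero]
    have h1 : Tendsto (fun w : ℂ => Real.exp (A (Real.log ‖w‖))) (𝓝[≠] 0) (𝓝 0) :=
      Real.tendsto_exp_atBot.comp (hA0.comp (Real.tendsto_log_nhdsGT_zero.comp
        tendsto_norm_nhdsNE_zero))
    refine h1.congr' ?_
    filter_upwards [self_mem_nhdsWithin] with w hw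
    exact (norm_upMap hw).symm
  · have h1 : Continuous (fun p : ℝ × ℝ =>
        Complex.exp (A p.1 + angMap (Ψ p.1) (Φ p.1) p.2 * Complex.I)) := by
      have := continuous_angMap (X := ℝ × ℝ) (hΨc.comp continuous_fst) (hΦc.comp continuous_fst)
        continuous_snd (fun x => hΨ _)
      exact ((Complex.continuous_ofReal.comp (hA.comp continuous_fst)).add
        ((Complex.continuous_ofReal.comp this).mul continuous_const)).cexp
    have h2 := h1.continuousAt.comp (f := fun w : ℂ => (Real.log ‖w‖, |w.arg|))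
      ((continuousAt_log_norm hz).prodMk (continuousAt_abs_arg hz))
    refine h2.congr ?_
    filter_upwards [isOpen_ne.mem_nhds hz] with w hw
    rw [upMap, if_neg hw]
    rfl

lemma continuous_polMap (hA : Continuous A) (hA0 : Tendsto A atBot atBot) (hΨc : Continuous Ψ)
    (hΦc : Continuous Φ) : Continuous (polMap A Ψ Φ) := by
  have hu := continuous_upMap (Φ := Φ) hΨ hA hA0 hΨc hΦc
  refine Continuous.if_le hu (Complex.continuous_conj.comp hu) continuous_const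
    Complex.continuous_im ?_
  intro z hz
  by_cases h0 : z = 0
  · simp [h0, upMap]
  rw [eq_comm, Complex.conj_eq_iff_im]
  have h1 := arg_upMap (A := A) hΨ hΦ h0
  rcases le_or_gt 0 z.re with h | h
  · rw [Complex.arg_eq_zero_iff.mpr ⟨h, hz.symm⟩, abs_zero, angMap_zero (hΨ _)] at h1
    exact (Complex.arg_eq_zero_iff.mp h1).2
  · rw [Complex.arg_eq_pi_iff.mpr ⟨h, hz.symm⟩, abs_of_pos Real.pi_pos, angMap_pi (hΨ _)] at h1
    exact (Complex.arg_eq_pi_iff.mp h1).2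

end pol

/-- The homeomorphism of the plane given by `polMap`. -/
noncomputable def polHomeo (A : ℝ ≃o ℝ) (Ψ Φ : ℝ → ℝ) (hΨ : ∀ x, Ψ x ∈ Ioo 0 π)
    (hΦ : ∀ x, Φ x ∈ Ioo 0 π) (hΨc : Continuous Ψ) (hΦc : Continuous Φ) : ℂ ≃ₜ ℂ where
  toFun := polMap A Ψ Φ
  invFun := polMap A.symm (Φ ∘ A.symm) (Ψ ∘ A.symm)
  left_inv := polMap_left_inv hΨ hΦ (fun x => by simp) (fun x => by simp) (fun x => by simp)
  right_inv := polMap_left_inv (fun _ => hΦ _) (fun _ => hΨ _) (fun x => by simp)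
    (fun x => by simp) (fun x => by simp)
  continuous_toFun := continuous_polMap hΨ hΦ A.continuous A.tendsto_atBot hΨc hΦc
  continuous_invFun := continuous_polMap (fun _ => hΦ _) (fun _ => hΨ _) A.symm.continuous
    A.symm.tendsto_atBot (hΦc.comp A.symm.continuous) (hΨc.comp A.symm.continuous)

lemma det_formula (D : ℂ →L[ℝ] ℂ) :
    D.det = (D 1).re * (D Complex.I).im - (D Complex.I).re * (D 1).im := by
  rw [ContinuousLinearMap.det, ← LinearMap.det_toMatrix Complex.basisOneI, Matrix.det_fin_two]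
  simp [LinearMap.toMatrix_apply]

/-- The local formula for the map in one of the angular sectors. -/
noncomputable def locMap (A d : ℝ → ℝ) (κ : ℝ) (z : ℂ) : ℂ :=
  Complex.exp (A (Real.log ‖z‖) + (κ + (z.arg - κ) * d (Real.log ‖z‖) : ℝ) * Complex.I)

lemma locMap_deriv {A d : ℝ → ℝ} {κ a d' b : ℝ} {z : ℂ} (hz : z.im ≠ 0)
    (hA : HasDerivAt A a (Real.log ‖z‖)) (hd : HasDerivAt d d' (Real.log ‖z‖)) (ha : 0 < a)
    (hd0 : 0 < d (Real.log ‖z‖)) (hb : |(z.arg - κ) * d'| ≤ b) :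
    ∃ D : ℂ →L[ℝ] ℂ, HasFDerivAt (locMap A d κ) D z ∧ 0 < D.det ∧
      ‖D‖ ^ 2 / D.det ≤ (max a (d (Real.log ‖z‖)) + b) ^ 2 / (a * d (Real.log ‖z‖)) := by
  have hs : z ∈ Complex.slitPlane := Or.inr hz
  have hz0 : z ≠ 0 := Complex.slitPlane_ne_zero hs
  have hlog := (Complex.hasStrictFDerivAt_log_real hs).hasFDerivAt
  have hre : HasFDerivAt (fun w : ℂ => Real.log ‖w‖)
      (Complex.reCLM.comp (z⁻¹ • (1 : ℂ →L[ℝ] ℂ))) z := by
    have := Complex.reCLM.hasFDerivAt.comp z hlog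
    refine this.congr_of_eventuallyEq (Eventually.of_forall fun w => ?_)
    simp [Complex.log_re]
  have him : HasFDerivAt (fun w : ℂ => w.arg) (Complex.imCLM.comp (z⁻¹ • (1 : ℂ →L[ℝ] ℂ))) z := by
    have := Complex.imCLM.hasFDerivAt.comp z hlog
    refine this.congr_of_eventuallyEq (Eventually.of_forall fun w => ?_)
    simp [Complex.log_im]
  have h1 := hA.comp_hasFDerivAt z hre
  have h2 := hd.comp_hasFDerivAt z hre
  have h3 := ((him.sub_const κ).mul h2).const_add κ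
  have h4 := ((Complex.ofRealCLM.hasFDerivAt.comp z h1).add
    ((Complex.ofRealCLM.hasFDerivAt.comp z h3).mul_const Complex.I)).cexp
  set δ := d (Real.log ‖z‖) with hδ
  set β := (z.arg - κ) * d' with hβ
  set E := locMap A d κ z with hE
  have hE0 : E ≠ 0 := Complex.exp_ne_zero _
  obtain ⟨D, hD, hDv⟩ : ∃ D : ℂ →L[ℝ] ℂ, HasFDerivAt (locMap A d κ) D z ∧
      ∀ v, D v = E * ((a * (z⁻¹ * v).re : ℝ) +
        (β * (z⁻¹ * v).re + δ * (z⁻¹ * v).im : ℝ) * Complex.I) := by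
    refine ⟨_, h4, fun v => ?_⟩
    simp only [hE, locMap, hβ, hδ, smul_apply, add_apply, ContinuousLinearMap.comp_apply,
      Complex.ofRealCLM_apply, Function.comp_apply, smul_eq_mul, Complex.reCLM_apply,
      Complex.imCLM_apply, one_apply_eq_self, Pi.add_apply, Pi.mul_apply]
    push_cast
    ring
  have hdet : D.det = ‖E‖ ^ 2 * ‖z⁻¹‖ ^ 2 * (a * δ) := by
    rw [det_formula, hDv, hDv, Complex.sq_norm, Complex.sq_norm, Complex.normSq_apply,
      Complex.normSq_apply]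
    generalize z⁻¹ = u
    simp only [mul_one, Complex.mul_re, Complex.mul_im, Complex.add_re, Complex.add_im,
      Complex.ofReal_re, Complex.ofReal_im, Complex.I_re, Complex.I_im]
    ring
  have hn : ‖D‖ ≤ ‖E‖ * ‖z⁻¹‖ * (max a δ + b) := by
    have hb0 : 0 ≤ b := (abs_nonneg _).trans hb
    have hm : 0 < max a δ := lt_max_of_lt_left ha
    refine ContinuousLinearMap.opNorm_le_bound _ (by positivity) (fun v => ?_)
    rw [hDv, norm_mul]
    have e : ‖z⁻¹‖ * ‖v‖ = ‖z⁻¹ * v‖ := (norm_mul _ _).symm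
    have e2 : ‖E‖ * ‖z⁻¹‖ * (max a δ + b) * ‖v‖ = ‖E‖ * ((max a δ + b) * (‖z⁻¹‖ * ‖v‖)) := by ring
    rw [e2, e]
    apply mul_le_mul_of_nonneg_left _ (norm_nonneg _)
    generalize z⁻¹ * v = u
    have e3 : ((a * u.re : ℝ) : ℂ) + (β * u.re + δ * u.im : ℝ) * Complex.I =
        (⟨a * u.re, δ * u.im⟩ : ℂ) + (β * u.re : ℝ) * Complex.I := by
      apply Complex.ext <;> simp [add_comm]
    rw [e3]
    refine (norm_add_le _ _).trans ?_
    have g1 : ‖(⟨a * u.re, δ * u.im⟩ : ℂ)‖ ≤ max a δ * ‖u‖ := by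
      apply le_of_sq_le_sq _ (by positivity)
      rw [mul_pow, Complex.sq_norm, Complex.sq_norm, Complex.normSq_apply, Complex.normSq_apply]
      have k1 : a ^ 2 ≤ (max a δ) ^ 2 := pow_le_pow_left₀ ha.le (le_max_left _ _) 2
      have k2 : δ ^ 2 ≤ (max a δ) ^ 2 := pow_le_pow_left₀ hd0.le (le_max_right _ _) 2
      nlinarith [mul_self_nonneg u.re, mul_self_nonneg u.im]
    have g2 : ‖((β * u.re : ℝ) : ℂ) * Complex.I‖ ≤ b * ‖u‖ := by
      rw [norm_mul, Complex.norm_I, mul_one, Complex.norm_real, Real.norm_eq_abs, abs_mul]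
      exact mul_le_mul hb (Complex.abs_re_le_norm u) (abs_nonneg _) hb0
    linarith
  have hpos : 0 < ‖E‖ ^ 2 * ‖z⁻¹‖ ^ 2 := by
    have := norm_pos_iff.mpr hE0
    have := norm_pos_iff.mpr (inv_ne_zero hz0)
    positivity
  refine ⟨D, hD, by rw [hdet]; positivity, ?_⟩
  rw [hdet, div_le_div_iff₀ (by positivity) (by positivity)]
  have := pow_le_pow_left₀ (norm_nonneg _) hn 2
  have h5 : 0 < a * δ := by positivity
  nlinarith

lemma polMap_eq_locMap {A Ψ Φ d : ℝ → ℝ} {κ : ℝ} {z : ℂ} (hz : z.im ≠ 0)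
    (h : angMap (Ψ (Real.log ‖z‖)) (Φ (Real.log ‖z‖)) |z.arg| =
      κ + (|z.arg| - κ) * d (Real.log ‖z‖)) :
    polMap A Ψ Φ z = locMap A d (if 0 < z.im then κ else -κ) z := by
  have hz0 : z ≠ 0 := fun h0 => hz (by simp [h0])
  rw [polMap, upMap, if_neg hz0, h, locMap]
  rcases lt_or_gt_of_ne hz with h1 | h1
  · rw [if_neg (not_le.mpr h1), if_neg (not_lt.mpr h1.le), ← Complex.exp_conj,
      abs_of_neg (Complex.arg_neg_iff.mpr h1)]
    congr 1
    simp only [map_add, map_mul, Complex.conj_ofReal, Complex.conj_I]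
    push_cast
    ring
  · rw [if_pos h1.le, if_pos h1, abs_of_nonneg (Complex.arg_nonneg_iff.mpr h1.le)]

lemma polMap_deriv_of {A Ψ Φ d : ℝ → ℝ} {κ a d' b : ℝ} {z : ℂ} (hz : z.im ≠ 0)
    (h : ∀ᶠ w in 𝓝 z, angMap (Ψ (Real.log ‖w‖)) (Φ (Real.log ‖w‖)) |w.arg| =
      κ + (|w.arg| - κ) * d (Real.log ‖w‖))
    (hA : HasDerivAt A a (Real.log ‖z‖)) (hd : HasDerivAt d d' (Real.log ‖z‖)) (ha : 0 < a)
    (hd0 : 0 < d (Real.log ‖z‖)) (hb : |(|z.arg| - κ) * d'| ≤ b) :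
    ∃ D : ℂ →L[ℝ] ℂ, HasFDerivAt (polMap A Ψ Φ) D z ∧ 0 < D.det ∧
      ‖D‖ ^ 2 / D.det ≤ (max a (d (Real.log ‖z‖)) + b) ^ 2 / (a * d (Real.log ‖z‖)) := by
  have hb' : |(z.arg - (if 0 < z.im then κ else -κ)) * d'| ≤ b := by
    rcases lt_or_gt_of_ne hz with h1 | h1
    · rw [if_neg (not_lt.mpr h1.le)]
      rw [abs_of_neg (Complex.arg_neg_iff.mpr h1)] at hb
      rw [← abs_neg]
      convert hb using 2
      ring
    · rw [if_pos h1]
      rwa [abs_of_nonneg (Complex.arg_nonneg_iff.mpr h1.le)] at hb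
  obtain ⟨D, h1, h2, h3⟩ := locMap_deriv hz hA hd ha hd0 hb'
  refine ⟨D, h1.congr_of_eventuallyEq ?_, h2, h3⟩
  rcases lt_or_gt_of_ne hz with h4 | h4
  · filter_upwards [h, (isOpen_lt Complex.continuous_im continuous_const).mem_nhds h4] with w hw h5
    have h6 : w.im < 0 := h5
    rw [polMap_eq_locMap h6.ne hw, if_neg (not_lt.mpr h6.le), if_neg (not_lt.mpr h4.le)]
  · filter_upwards [h, (isOpen_lt continuous_const Complex.continuous_im).mem_nhds h4] with w hw h5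
    have h6 : 0 < w.im := h5
    rw [polMap_eq_locMap h6.ne' hw, if_pos h6, if_pos h4]

lemma polMap_deriv_in {A Ψ Φ : ℝ → ℝ} {a ψ φ : ℝ} {z : ℂ} (hz : z.im ≠ 0)
    (hΨ : ∀ x, Ψ x ∈ Ioo 0 π) (hΦ : ∀ x, Φ x ∈ Ioo 0 π)
    (hA : HasDerivAt A a (Real.log ‖z‖)) (h1 : HasDerivAt Ψ ψ (Real.log ‖z‖))
    (h2 : HasDerivAt Φ φ (Real.log ‖z‖)) (ha : 0 < a) (hin : |z.arg| < Ψ (Real.log ‖z‖)) :
    ∃ D : ℂ →L[ℝ] ℂ, HasFDerivAt (polMap A Ψ Φ) D z ∧ 0 < D.det ∧
      ‖D‖ ^ 2 / D.det ≤ (max a (Φ (Real.log ‖z‖) / Ψ (Real.log ‖z‖)) +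
        (|φ| + Φ (Real.log ‖z‖) / Ψ (Real.log ‖z‖) * |ψ|)) ^ 2 /
        (a * (Φ (Real.log ‖z‖) / Ψ (Real.log ‖z‖))) := by
  have hz0 : z ≠ 0 := fun h0 => hz (by simp [h0])
  have p0 := (hΨ (Real.log ‖z‖)).1
  have q0 := (hΦ (Real.log ‖z‖)).1
  refine polMap_deriv_of (κ := 0) (d := fun x => Φ x / Ψ x) hz ?_ hA (h2.div h1 p0.ne') ha
    (div_pos q0 p0) ?_
  · have hc := (continuousAt_abs_arg hz0).eventually_lt
      (h1.continuousAt.comp (f := fun w : ℂ => Real.log ‖w‖) (continuousAt_log_norm hz0)) hin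
    filter_upwards [hc] with w hw
    have hw' : |w.arg| < Ψ (Real.log ‖w‖) := hw
    rw [angMap, if_pos hw'.le]
    ring
  · generalize Ψ (Real.log ‖z‖) = p at *
    generalize Φ (Real.log ‖z‖) = q at *
    have e : (|z.arg| - 0) * ((φ * p - q * ψ) / p ^ 2) = |z.arg| / p * (φ - q / p * ψ) := by
      field_simp
      ring
    rw [e, abs_mul]
    have k1 : |(|z.arg| / p)| ≤ 1 := by
      rw [abs_of_nonneg (by positivity), div_le_one p0]
      exact hin.le
    have k2 : |φ - q / p * ψ| ≤ |φ| + q / p * |ψ| := by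
      refine (abs_sub _ _).trans ?_
      rw [abs_mul, abs_of_pos (div_pos q0 p0)]
    nlinarith [abs_nonneg (φ - q / p * ψ)]

lemma polMap_deriv_out {A Ψ Φ : ℝ → ℝ} {a ψ φ : ℝ} {z : ℂ} (hz : z.im ≠ 0)
    (hΨ : ∀ x, Ψ x ∈ Ioo 0 π) (hΦ : ∀ x, Φ x ∈ Ioo 0 π)
    (hA : HasDerivAt A a (Real.log ‖z‖)) (h1 : HasDerivAt Ψ ψ (Real.log ‖z‖))
    (h2 : HasDerivAt Φ φ (Real.log ‖z‖)) (ha : 0 < a) (hout : Ψ (Real.log ‖z‖) < |z.arg|) :
    ∃ D : ℂ →L[ℝ] ℂ, HasFDerivAt (polMap A Ψ Φ) D z ∧ 0 < D.det ∧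
      ‖D‖ ^ 2 / D.det ≤ (max a ((π - Φ (Real.log ‖z‖)) / (π - Ψ (Real.log ‖z‖))) +
        (|φ| + (π - Φ (Real.log ‖z‖)) / (π - Ψ (Real.log ‖z‖)) * |ψ|)) ^ 2 /
        (a * ((π - Φ (Real.log ‖z‖)) / (π - Ψ (Real.log ‖z‖)))) := by
  have hz0 : z ≠ 0 := fun h0 => hz (by simp [h0])
  have p0 := sub_pos.mpr (hΨ (Real.log ‖z‖)).2
  have q0 := sub_pos.mpr (hΦ (Real.log ‖z‖)).2
  refine polMap_deriv_of (κ := π) (d := fun x => (π - Φ x) / (π - Ψ x)) hz ?_ hA
    ((h2.const_sub π).div (h1.const_sub π) p0.ne') ha (div_pos q0 p0) ?_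
  · have hc := (h1.continuousAt.comp (f := fun w : ℂ => Real.log ‖w‖)
      (continuousAt_log_norm hz0)).eventually_lt (continuousAt_abs_arg hz0) hout
    filter_upwards [hc] with w hw
    have hw' : Ψ (Real.log ‖w‖) < |w.arg| := hw
    rw [angMap, if_neg (not_le.mpr hw')]
    ring
  · have hle := Complex.abs_arg_le_pi z
    have hout' : π - |z.arg| ≤ π - Ψ (Real.log ‖z‖) := by linarith
    generalize π - Ψ (Real.log ‖z‖) = p at *
    generalize π - Φ (Real.log ‖z‖) = q at *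
    have e : (|z.arg| - π) * ((-φ * p - q * -ψ) / p ^ 2) = (π - |z.arg|) / p * (φ - q / p * ψ) := by
      field_simp
      ring
    rw [e, abs_mul]
    have k1 : |(π - |z.arg|) / p| ≤ 1 := by
      rw [abs_of_nonneg (div_nonneg (by linarith) p0.le), div_le_one p0]
      exact hout'
    have k2 : |φ - q / p * ψ| ≤ |φ| + q / p * |ψ| := by
      refine (abs_sub _ _).trans ?_
      rw [abs_mul, abs_of_pos (div_pos q0 p0)]
    nlinarith [abs_nonneg (φ - q / p * ψ)]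

lemma polMap_deriv_far {A Ψ Φ : ℝ → ℝ} {a : ℝ} {z : ℂ} (hz : z.im ≠ 0)
    (hΨ : ∀ x, Ψ x ∈ Ioo 0 π) (hA : HasDerivAt A a (Real.log ‖z‖)) (ha : 0 < a)
    (heq : ∀ᶠ x in 𝓝 (Real.log ‖z‖), Φ x = Ψ x) :
    ∃ D : ℂ →L[ℝ] ℂ, HasFDerivAt (polMap A Ψ Φ) D z ∧ 0 < D.det ∧
      ‖D‖ ^ 2 / D.det ≤ (max a 1) ^ 2 / a := by
  have hz0 : z ≠ 0 := fun h0 => hz (by simp [h0])
  have := polMap_deriv_of (A := A) (Ψ := Ψ) (Φ := Φ) (κ := 0) (d := fun _ => 1) (b := 0) hz ?_ hA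
    (hasDerivAt_const _ _) ha one_pos (by simp)
  · simpa using this
  · filter_upwards [(continuousAt_log_norm hz0).eventually heq] with w hw
    rw [hw, angMap_self (hΨ _)]
    ring

end Pool.Agent.MP_8a3eee_an
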