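import Mathlib.Topology.Algebra.Module.ModuleTopology
import Mathlib.Algebra.Order.Ring.Star
import Mathlib.Analysis.InnerProductSpace.Basic
import Mathlib.Algebra.Order.Star.Real
import Mathlib.Analysis.SpecialFunctions.Trigonometric.Bounds
import Mathlib.Analysis.Complex.ExponentialBounds
import Mathlib.Analysis.SpecialFunctions.Trigonometric.InverseDeriv
import Mathlib.Tactic.Algebra.Basic

set_option autoImplicit false

namespace Pool.Agent.MP_8a3eee_an

open Set Filter Topology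
open scoped Real

noncomputable def uu (L0 x : ℝ) : ℝ := (L0 - x) - Real.log (L0 - x)

noncomputable def tau (L0 x : ℝ) : ℝ := uu L0 0 / uu L0 x

noncomputable def gam (L0 x : ℝ) : ℝ := (1 - 1 / (L0 - x)) / uu L0 x

noncomputable def radA (lam : ℝ) (m : ℕ) (L0 x : ℝ) : ℝ :=
  lam * Real.log (tau L0 x) + Real.log (1 + (tau L0 x ^ m) ^ 2) / 2

noncomputable def radA' (lam : ℝ) (m : ℕ) (L0 x : ℝ) : ℝ :=
  gam L0 x * (lam + m * (tau L0 x ^ m) ^ 2 / (1 + (tau L0 x ^ m) ^ 2))

lemma log_le_half {L : ℝ} (hL : 0 < L) : Real.log L ≤ L / 2 := by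
  have h1 := Real.log_le_sub_one_of_pos (show 0 < L / 2 by positivity)
  rw [Real.log_div hL.ne' two_ne_zero] at h1
  have h2 := Real.log_two_lt_d9
  linarith

section

variable {L0 x : ℝ} (hL : 2 ≤ L0) (hx : x ≤ 0)
include hL hx

lemma half_le_uu : (L0 - x) / 2 ≤ uu L0 x := by
  have := log_le_half (show 0 < L0 - x by linarith)
  unfold uu
  linarith

lemma one_le_uu : 1 ≤ uu L0 x := by
  have := half_le_uu hL hx
  linarith

lemma uu_le : uu L0 x ≤ L0 - x := by
  have := Real.log_nonneg (show 1 ≤ L0 - x by linarith)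
  unfold uu
  linarith

lemma uu_zero_le : uu L0 0 ≤ uu L0 x := by
  have h1 := Real.log_le_sub_one_of_pos (show 0 < (L0 - x) / L0 by
    apply div_pos <;> linarith)
  rw [Real.log_div (by linarith) (by linarith)] at h1
  have h2 : (L0 - x) / L0 - 1 ≤ -x := by
    rw [sub_le_iff_le_add, div_le_iff₀ (by linarith)]
    nlinarith
  unfold uu
  rw [sub_zero]
  linarith

lemma tau_pos : 0 < tau L0 x :=
  div_pos (by linarith [one_le_uu hL le_rfl]) (by linarith [one_le_uu hL hx])

lemma tau_le_one : tau L0 x ≤ 1 :=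
  (div_le_one (by linarith [one_le_uu hL hx])).mpr (uu_zero_le hL hx)

lemma gam_pos : 0 < gam L0 x := by
  apply div_pos _ (by linarith [one_le_uu hL hx])
  rw [sub_pos, div_lt_one (by linarith)]
  linarith

lemma gam_mul_le : gam L0 x * uu L0 x ≤ 1 := by
  have h1 := one_le_uu hL hx
  unfold gam
  rw [div_mul_cancel₀ _ (by linarith)]
  have : 0 < 1 / (L0 - x) := by apply div_pos <;> linarith
  linarith

lemma one_le_gam_mul : 1 ≤ gam L0 x * (uu L0 x + 2) := by
  have h1 := one_le_uu hL hx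
  have h2 := uu_le hL hx
  have h3 : 0 < L0 - x := by linarith
  unfold gam
  rw [div_mul_eq_mul_div, le_div_iff₀ (by linarith)]
  have e : (1 - 1 / (L0 - x)) * (uu L0 x + 2) = uu L0 x + 2 - (uu L0 x + 2) / (L0 - x) := by
    field_simp
  have h4 : (uu L0 x + 2) / (L0 - x) ≤ 2 := by
    rw [div_le_iff₀ h3]
    linarith
  linarith

lemma gam_le_one : gam L0 x ≤ 1 := by
  have h1 := gam_mul_le hL hx
  have h2 := one_le_uu hL hx
  have h3 := gam_pos hL hx
  nlinarith

lemma exp_le_gam : Real.exp x ≤ (L0 + 3) * gam L0 x := by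
  have h1 := one_le_gam_mul hL hx
  have h2 := uu_le hL hx
  have h3 := gam_pos hL hx
  have h4 : Real.exp x ≤ 1 := Real.exp_le_one_iff.mpr hx
  have h5 : -x * Real.exp x ≤ 1 := by
    have := Real.add_one_le_exp (-x)
    have h6 : Real.exp (-x) * Real.exp x = 1 := by rw [← Real.exp_add]; simp
    nlinarith [Real.exp_pos x]
  have h7 : Real.exp x * (uu L0 x + 2) ≤ L0 + 3 := by nlinarith [Real.exp_pos x]
  nlinarith [Real.exp_pos x]

lemma hasDerivAt_uu : HasDerivAt (uu L0) (-(1 - 1 / (L0 - x))) x := by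
  have h1 : HasDerivAt (fun y => L0 - y) (-1) x := (hasDerivAt_id x).const_sub L0
  have h2 := h1.sub (h1.log (by linarith))
  exact h2.congr_deriv (by ring)

lemma hasDerivAt_tau : HasDerivAt (tau L0) (gam L0 x * tau L0 x) x := by
  have h1 := one_le_uu hL hx
  have h2 := (hasDerivAt_const x (uu L0 0)).div (hasDerivAt_uu hL hx) (by linarith)
  refine h2.congr_deriv ?_
  unfold gam tau
  field_simp
  ring

lemma hasDerivAt_tau_pow (m : ℕ) :
    HasDerivAt (fun y => tau L0 y ^ m) (m * gam L0 x * tau L0 x ^ m) x := by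
  have h := (hasDerivAt_tau hL hx).pow m
  refine h.congr_deriv ?_
  rcases m with _ | m
  · simp
  · simp only [Nat.add_sub_cancel]
    ring

lemma hasDerivAt_radA (lam : ℝ) (m : ℕ) : HasDerivAt (radA lam m L0) (radA' lam m L0 x) x := by
  have h0 := tau_pos hL hx
  have h1 := ((hasDerivAt_tau hL hx).log h0.ne').const_mul lam
  have h3 : HasDerivAt (fun y => 1 + (tau L0 y ^ m) ^ 2)
      (2 * tau L0 x ^ m * (m * gam L0 x * tau L0 x ^ m)) x :=
    (((hasDerivAt_tau_pow hL hx m).pow 2).const_add 1).congr_deriv (by simp)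
  have h2 := (h3.log (by positivity)).div_const 2
  refine (h1.add h2).congr_deriv ?_
  unfold radA'
  field_simp

lemma le_radA' (lam : ℝ) (m : ℕ) : lam * gam L0 x ≤ radA' lam m L0 x := by
  have h0 := gam_pos hL hx
  unfold radA'
  have : 0 ≤ m * (tau L0 x ^ m) ^ 2 / (1 + (tau L0 x ^ m) ^ 2) := by positivity
  nlinarith

lemma radA'_le (lam : ℝ) (m : ℕ) : radA' lam m L0 x ≤ (lam + m) * gam L0 x := by
  have h0 := gam_pos hL hx
  unfold radA'
  have : m * (tau L0 x ^ m) ^ 2 / (1 + (tau L0 x ^ m) ^ 2) ≤ m := by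
    rw [div_le_iff₀ (by positivity)]
    have : (0 : ℝ) ≤ m := Nat.cast_nonneg m
    nlinarith
  nlinarith

lemma hasDerivAt_arctan_tau (m : ℕ) : ∃ φ, HasDerivAt (fun y => Real.arctan (tau L0 y ^ m)) φ x ∧
    |φ| ≤ m * gam L0 x := by
  refine ⟨_, (hasDerivAt_tau_pow hL hx m).arctan, ?_⟩
  have h0 := gam_pos hL hx
  have h1 := tau_pos hL hx
  have h2 : tau L0 x ^ m ≤ 1 := pow_le_one₀ h1.le (tau_le_one hL hx)
  have h3 : 1 / (1 + (tau L0 x ^ m) ^ 2) ≤ 1 := by
    rw [div_le_one (by positivity)]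
    nlinarith
  rw [abs_of_nonneg (by positivity)]
  calc 1 / (1 + (tau L0 x ^ m) ^ 2) * (m * gam L0 x * tau L0 x ^ m)
      ≤ 1 * (m * gam L0 x * 1) := by gcongr
    _ = _ := by ring

end

lemma tau_zero {L0 : ℝ} (hL : 2 ≤ L0) : tau L0 0 = 1 :=
  div_self (by linarith [one_le_uu hL le_rfl])

lemma radA_zero {L0 : ℝ} (hL : 2 ≤ L0) (lam : ℝ) (m : ℕ) : radA lam m L0 0 = Real.log 2 / 2 := by
  simp only [radA, tau_zero hL, Real.log_one, one_pow]
  norm_num

lemma radA_strictMonoOn {L0 lam : ℝ} (hL : 2 ≤ L0) (hlam : 0 < lam) (m : ℕ) :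
    StrictMonoOn (radA lam m L0) (Iic 0) := by
  refine strictMonoOn_of_deriv_pos (convex_Iic 0)
    (fun x hx => (hasDerivAt_radA hL hx lam m).continuousAt.continuousWithinAt) ?_
  intro x hx
  have hx' : x ≤ 0 := mem_Iic.mp (interior_subset hx)
  rw [(hasDerivAt_radA hL hx' lam m).deriv]
  exact (mul_pos hlam (gam_pos hL hx')).trans_le (le_radA' hL hx' lam m)

lemma radA_tendsto {L0 lam : ℝ} (hL : 2 ≤ L0) (hlam : 0 < lam) (m : ℕ) :
    Tendsto (radA lam m L0) atBot atBot := by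
  have h1 : Tendsto (uu L0) atBot atTop := by
    have : Tendsto (fun x => (L0 - x) / 2) atBot atTop :=
      (tendsto_atTop_add_const_left _ L0 tendsto_neg_atBot_atTop).atTop_div_const two_pos
    refine tendsto_atTop_mono' _ ?_ this
    filter_upwards [eventually_le_atBot 0] with x hx
    exact half_le_uu hL hx
  have h2 : Tendsto (fun x => lam * (Real.log (uu L0 0) - Real.log (uu L0 x)) + Real.log 2 / 2)
      atBot atBot := by
    apply tendsto_atBot_add_const_right
    apply Tendsto.const_mul_atBot hlam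
    exact tendsto_atBot_add_const_left _ _
      (tendsto_neg_atTop_atBot.comp (Real.tendsto_log_atTop.comp h1))
  refine tendsto_atBot_mono' _ ?_ h2
  filter_upwards [eventually_le_atBot 0] with x hx
  have h3 := one_le_uu hL hx
  have h4 := one_le_uu hL (le_refl 0)
  have h5 : tau L0 x ^ m ≤ 1 := pow_le_one₀ (tau_pos hL hx).le (tau_le_one hL hx)
  have h6 : 0 < tau L0 x ^ m := pow_pos (tau_pos hL hx) m
  have h7 : Real.log (1 + (tau L0 x ^ m) ^ 2) ≤ Real.log 2 :=
    Real.log_le_log (by positivity) (by nlinarith)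
  unfold radA
  rw [tau, Real.log_div (by linarith) (by linarith), ← tau]
  linarith

lemma arctan_bounds {y : ℝ} (h0 : 0 < y) (h1 : y ≤ 1) :
    y / 2 ≤ Real.arctan y ∧ Real.arctan y ≤ y ∧ Real.arctan y ≤ π / 4 := by
  have hp : 0 < Real.arctan y := Real.arctan_pos.mpr h0
  refine ⟨?_, ?_, ?_⟩
  · have h2 := Real.sin_le hp.le
    rw [Real.sin_arctan] at h2
    refine le_trans ?_ h2
    apply div_le_div_of_nonneg_left h0.le (by positivity)
    rw [Real.sqrt_le_iff]
    constructor <;> nlinarith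
  · have := Real.le_tan hp.le (Real.arctan_lt_pi_div_two y)
    rwa [Real.tan_arctan] at this
  · rw [← Real.arctan_one]
    exact Real.arctan_mono h1

lemma arccos_bounds {r : ℝ} (h0 : 0 < r) (h1 : r ≤ 1) :
    π / 3 ≤ Real.arccos (r / 2) ∧ Real.arccos (r / 2) ≤ π / 2 ∧
      π / 2 * (1 - r / 2) ≤ Real.arccos (r / 2) := by
  have hp := Real.pi_pos
  refine ⟨?_, Real.arccos_le_pi_div_two.mpr (by linarith), ?_⟩
  · have : Real.arccos (1 / 2) = π / 3 := by
      rw [← Real.cos_pi_div_three, Real.arccos_cos (by linarith) (by linarith)]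
    rw [← this]
    exact Real.antitone_arccos (by linarith)
  · rw [Real.arccos_eq_pi_div_two_sub_arcsin]
    have h2 : Real.arcsin (r / 2) ≤ π / 2 * (r / 2) := by
      rw [Real.arcsin_le_iff_le_sin ⟨by linarith, by linarith⟩ ⟨by nlinarith, by nlinarith⟩]
      have := Real.mul_le_sin (x := π / 2 * (r / 2)) (by positivity) (by nlinarith)
      have e : 2 / π * (π / 2 * (r / 2)) = r / 2 := by field_simp
      linarith
    linarith

lemma hasDerivAt_arccos_exp {x : ℝ} (hx : Real.exp x < 2) :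
    HasDerivAt (fun y => Real.arccos (Real.exp y / 2))
      (-(1 / √(1 - (Real.exp x / 2) ^ 2)) * (Real.exp x / 2)) x := by
  have h0 := Real.exp_pos x
  exact (Real.hasDerivAt_arccos (by linarith) (by linarith)).comp x
    ((Real.hasDerivAt_exp x).div_const 2)

lemma abs_deriv_arccos_exp {x : ℝ} (hx : x ≤ 0) :
    |-(1 / √(1 - (Real.exp x / 2) ^ 2)) * (Real.exp x / 2)| ≤ Real.exp x := by
  have h0 := Real.exp_pos x
  have h1 : Real.exp x ≤ 1 := Real.exp_le_one_iff.mpr hx
  have h2 : 1 / 2 ≤ √(1 - (Real.exp x / 2) ^ 2) := by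
    apply Real.le_sqrt_of_sq_le
    nlinarith
  have h3 : 1 / √(1 - (Real.exp x / 2) ^ 2) ≤ 2 := by
    rw [div_le_iff₀ (by linarith)]
    linarith
  rw [neg_mul, abs_neg, abs_of_nonneg (by positivity)]
  nlinarith

/-- The estimate on the side where the angle is roughly doubled. -/
lemma wide_bound {lam : ℝ} (hlam : 0 < lam) (m : ℕ) {L0 : ℝ} (hL : 2 ≤ L0) :
    ∃ C : ℝ, ∀ x ≤ 0, ∀ d φ ψ : ℝ, 1 ≤ d → d ≤ 2 + 2 * Real.exp x → |φ| ≤ m * gam L0 x →
      |ψ| ≤ Real.exp x →
      lam * ((max (radA' lam m L0 x) d + (|φ| + d * |ψ|)) ^ 2 / (radA' lam m L0 x * d)) ≤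
        2 * uu L0 x + C := by
  set β := 1 + (m + 4 * (L0 + 3)) / lam with hβ
  have hβ0 : 0 ≤ β := by
    have : 0 ≤ L0 + 3 := by linarith
    positivity
  refine ⟨4 + 2 * (L0 + 3) + lam * (2 * β + β ^ 2 * (lam + m)), ?_⟩
  intro x hx d φ ψ hd1 hd2 hφ hψ
  have g0 := gam_pos hL hx
  have g1 := gam_le_one hL hx
  have g2 := one_le_gam_mul hL hx
  have g3 := exp_le_gam hL hx
  have a1 := le_radA' hL hx lam m
  have a2 := radA'_le hL hx lam m
  have e1 : Real.exp x ≤ 1 := Real.exp_le_one_iff.mpr hx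
  generalize radA' lam m L0 x = a at *
  generalize gam L0 x = γ at *
  generalize uu L0 x = u at *
  generalize Real.exp x = r at *
  have hm : (0 : ℝ) ≤ m := Nat.cast_nonneg m
  have ha : 0 < a := (mul_pos hlam g0).trans_le a1
  have hγ : γ ≤ a / lam := by
    rw [le_div_iff₀ hlam]
    linarith
  have h1 : max a d + (|φ| + d * |ψ|) ≤ d + β * a := by
    have k1 : max a d ≤ a + d := max_le (by linarith) (by linarith)
    have k2 : d * |ψ| ≤ 4 * ((L0 + 3) * γ) :=
      mul_le_mul (by linarith) (hψ.trans g3) (abs_nonneg _) (by norm_num)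
    have k3 : (m + 4 * (L0 + 3)) * γ ≤ (m + 4 * (L0 + 3)) * (a / lam) :=
      mul_le_mul_of_nonneg_left hγ (by linarith)
    have k4 : β * a = a + (m + 4 * (L0 + 3)) * (a / lam) := by
      rw [hβ]
      ring
    nlinarith
  have h2 : (max a d + (|φ| + d * |ψ|)) ^ 2 / (a * d) ≤ (d + β * a) ^ 2 / (a * d) := by
    have : 0 ≤ max a d + (|φ| + d * |ψ|) := by
      have : 0 < max a d := lt_max_of_lt_left ha
      have : 0 ≤ d := by linarith
      positivity
    gcongr
  have h3 : (d + β * a) ^ 2 / (a * d) = d / a + 2 * β + β ^ 2 * (a / d) := by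
    field_simp
    ring
  have h4 : a / d ≤ lam + m := by
    rw [div_le_iff₀ (by linarith)]
    nlinarith
  have h5 : lam * (d / a) ≤ 2 * u + 4 + 2 * (L0 + 3) := by
    rw [← mul_div_assoc, div_le_iff₀ ha]
    have k1 : d ≤ (2 * u + 4 + 2 * (L0 + 3)) * γ := by nlinarith
    have k2 : 0 ≤ 2 * u + 4 + 2 * (L0 + 3) := by nlinarith
    calc lam * d ≤ lam * ((2 * u + 4 + 2 * (L0 + 3)) * γ) := by gcongr
      _ = (2 * u + 4 + 2 * (L0 + 3)) * (lam * γ) := by ring
      _ ≤ _ := by gcongr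
  have h6 : β ^ 2 * (a / d) ≤ β ^ 2 * (lam + m) := by gcongr
  calc lam * ((max a d + (|φ| + d * |ψ|)) ^ 2 / (a * d))
      ≤ lam * (d / a + 2 * β + β ^ 2 * (lam + m)) := by
        apply mul_le_mul_of_nonneg_left _ hlam.le
        linarith
    _ ≤ _ := by nlinarith

/-- The estimate on the side that is squeezed into the cusp. -/
lemma narrow_bound {lam : ℝ} (hlam : 0 < lam) {m : ℕ} (hm1 : 1 ≤ m) {L0 : ℝ} (hL : 2 ≤ L0)
    {x : ℝ} (hx : x ≤ 0) {d φ ψ : ℝ} (hd1 : tau L0 x ^ m / 8 ≤ d) (hd2 : d ≤ tau L0 x ^ m)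
    (hφ : |φ| ≤ m * gam L0 x) (hψ : |ψ| ≤ Real.exp x) :
    (max (radA' lam m L0 x) d + (|φ| + d * |ψ|)) ^ 2 / (radA' lam m L0 x * d) ≤
      16 * (1 + m / lam) ^ 2 * (lam + m) / (uu L0 x * tau L0 x ^ m) + 24 * uu L0 0 / lam := by
  have g0 := gam_pos hL hx
  have g1 := gam_mul_le hL hx
  have g2 := one_le_gam_mul hL hx
  have a1 := le_radA' hL hx lam m
  have a2 := radA'_le hL hx lam m
  have e1 : Real.exp x ≤ 1 := Real.exp_le_one_iff.mpr hx
  have t0 := tau_pos hL hx
  have t1 : tau L0 x ^ m ≤ tau L0 x := pow_le_of_le_one t0.le (tau_le_one hL hx) (by omega)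
  have t2 : 0 < tau L0 x ^ m := pow_pos t0 m
  have u1 := one_le_uu hL hx
  have t3 : tau L0 x * uu L0 x = uu L0 0 := div_mul_cancel₀ _ (by linarith)
  generalize radA' lam m L0 x = a at *
  generalize gam L0 x = γ at *
  generalize tau L0 x ^ m = T at *
  generalize tau L0 x = τ at *
  generalize uu L0 x = u at *
  generalize uu L0 0 = u0 at *
  generalize Real.exp x = r at *
  have hm : (0 : ℝ) ≤ m := Nat.cast_nonneg m
  have ha : 0 < a := (mul_pos hlam g0).trans_le a1
  have hd : 0 < d := by linarith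
  set β := 1 + m / lam with hβ
  have hγ : γ ≤ a / lam := by
    rw [le_div_iff₀ hlam]
    linarith
  have h1 : max a d + (|φ| + d * |ψ|) ≤ β * a + 2 * d := by
    have k1 : max a d ≤ a + d := max_le (by linarith) (by linarith)
    have k2 : d * |ψ| ≤ d * 1 := mul_le_mul_of_nonneg_left (hψ.trans e1) hd.le
    have k3 : m * γ ≤ m * (a / lam) := mul_le_mul_of_nonneg_left hγ hm
    have k4 : β * a = a + m * (a / lam) := by
      rw [hβ]
      ring
    linarith
  have h2 : (max a d + (|φ| + d * |ψ|)) ^ 2 / (a * d) ≤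
      (2 * (β * a) ^ 2 + 2 * (2 * d) ^ 2) / (a * d) := by
    have k0 : 0 ≤ max a d + (|φ| + d * |ψ|) := by
      have : 0 < max a d := lt_max_of_lt_left ha
      positivity
    have k1 := pow_le_pow_left₀ k0 h1 2
    apply div_le_div_of_nonneg_right _ (by positivity)
    nlinarith [sq_nonneg (β * a - 2 * d)]
  have h3 : (2 * (β * a) ^ 2 + 2 * (2 * d) ^ 2) / (a * d) = 2 * β ^ 2 * (a / d) + 8 * (d / a) := by
    field_simp
    ring
  have h4 : a / d ≤ 8 * (lam + m) / (u * T) := by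
    rw [div_le_div_iff₀ hd (by positivity)]
    have k1 : a * u ≤ lam + m := by
      calc a * u ≤ (lam + m) * γ * u := by gcongr
        _ = (lam + m) * (γ * u) := by ring
        _ ≤ (lam + m) * 1 := by gcongr
        _ = _ := mul_one _
    calc a * (u * T) = a * u * T := by ring
      _ ≤ (lam + m) * (8 * d) := by gcongr; linarith
      _ = _ := by ring
  have h5 : d / a ≤ 3 * u0 / lam := by
    rw [div_le_div_iff₀ ha hlam]
    have k1 : d ≤ τ * (γ * (u + 2)) := by nlinarith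
    have k2 : τ * (γ * (u + 2)) ≤ 3 * u0 * γ := by
      rw [← t3]
      nlinarith [mul_pos t0 g0]
    have k3 : 0 ≤ u0 := by rw [← t3]; positivity
    calc d * lam ≤ 3 * u0 * γ * lam := by gcongr; linarith
      _ = 3 * u0 * (lam * γ) := by ring
      _ ≤ _ := by gcongr
  calc _ ≤ 2 * β ^ 2 * (a / d) + 8 * (d / a) := h3 ▸ h2
    _ ≤ 2 * β ^ 2 * (8 * (lam + m) / (u * T)) + 8 * (3 * u0 / lam) := by gcongr
    _ = _ := by ring

end Pool.Agent.MP_8a3eee_an
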