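import Mathlib.Order.Monotone.Union
import Pool.Agent.MP_8a3eee_an.Zone1

set_option autoImplicit false

namespace Pool.Agent.MP_8a3eee_an

open Set Filter Topology
open scoped Real

/-- Glue two functions at `x0`. -/
noncomputable def glue (x0 : ℝ) (f g : ℝ → ℝ) (x : ℝ) : ℝ := if x ≤ x0 then f x else g x

lemma glue_of_le {x0 x : ℝ} {f g : ℝ → ℝ} (h : x ≤ x0) : glue x0 f g x = f x := if_pos h

lemma glue_of_ge {x0 x : ℝ} {f g : ℝ → ℝ} (h0 : f x0 = g x0) (h : x0 ≤ x) :
    glue x0 f g x = g x := by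
  unfold glue
  split_ifs with h1
  · rw [le_antisymm h1 h, h0]
  · rfl

lemma glue_continuous {x0 : ℝ} {f g : ℝ → ℝ} (h0 : f x0 = g x0) (hf : ContinuousOn f (Iic x0))
    (hg : ContinuousOn g (Ici x0)) : Continuous (glue x0 f g) :=
  continuous_if_le continuous_id continuous_const hf hg (fun x hx => by
    have : x = x0 := hx
    rw [this, h0])

lemma glue_strictMono {x0 : ℝ} {f g : ℝ → ℝ} (h0 : f x0 = g x0) (hf : StrictMonoOn f (Iic x0))
    (hg : StrictMonoOn g (Ici x0)) : StrictMono (glue x0 f g) := by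
  refine StrictMonoOn.Iic_union_Ici (a := x0) ?_ ?_
  · exact hf.congr (fun x hx => (glue_of_le hx).symm)
  · exact hg.congr (fun x hx => (glue_of_ge h0 hx).symm)

lemma glue_eventually_left {x0 x : ℝ} {f g : ℝ → ℝ} (h : x < x0) : glue x0 f g =ᶠ[𝓝 x] f := by
  filter_upwards [Iio_mem_nhds h] with y hy
  exact glue_of_le (le_of_lt hy)

lemma glue_eventually_right {x0 x : ℝ} {f g : ℝ → ℝ} (h : x0 < x) : glue x0 f g =ᶠ[𝓝 x] g := by
  filter_upwards [Ioi_mem_nhds h] with y hy
  exact if_neg (not_le.mpr hy)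

noncomputable def l2 : ℝ := Real.log (3 / 2)

lemma l2_pos : 0 < l2 := Real.log_pos (by norm_num)

lemma exp_l2 : Real.exp l2 = 3 / 2 := Real.exp_log (by norm_num)

noncomputable def rho3 (c e x : ℝ) : ℝ :=
  (c * Real.exp x + √((c * Real.exp x) ^ 2 - 4 * e)) / 2

noncomputable def farA (c e x : ℝ) : ℝ := Real.log (rho3 c e x)

lemma rho3_pos {c : ℝ} (hc : 0 < c) (e x : ℝ) : 0 < rho3 c e x := by
  unfold rho3
  positivity

section far

variable {c e x : ℝ} (hc : 0 < c) (he : 2 * e ≤ c ^ 2) (hx : l2 ≤ x)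
include hc he hx

lemma disc_ge : (c * Real.exp x / 3) ^ 2 ≤ (c * Real.exp x) ^ 2 - 4 * e := by
  have h1 : 3 / 2 ≤ Real.exp x := exp_l2 ▸ Real.exp_le_exp.mpr hx
  have h2 : 9 / 4 ≤ Real.exp x ^ 2 := by nlinarith
  have h3 : c ^ 2 * (9 / 4) ≤ c ^ 2 * Real.exp x ^ 2 := by gcongr
  nlinarith

lemma disc_pos : 0 < (c * Real.exp x) ^ 2 - 4 * e :=
  lt_of_lt_of_le (by positivity) (disc_ge hc he hx)

lemma rho3_eq : rho3 c e x ^ 2 + e = c * Real.exp x * rho3 c e x := by
  have h := Real.sq_sqrt (disc_pos hc he hx).le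
  unfold rho3
  nlinarith

lemma hasDerivAt_farA :
    HasDerivAt (farA c e) (c * Real.exp x / √((c * Real.exp x) ^ 2 - 4 * e)) x := by
  have h0 := disc_pos hc he hx
  have h1 : HasDerivAt (fun y => c * Real.exp y) (c * Real.exp x) x :=
    (Real.hasDerivAt_exp x).const_mul c
  have h2 : HasDerivAt (fun y => (c * Real.exp y) ^ 2 - 4 * e)
      (2 * (c * Real.exp x) * (c * Real.exp x)) x :=
    ((h1.pow 2).sub_const (4 * e)).congr_deriv (by simp)
  have h3 := ((h1.add (h2.sqrt h0.ne')).div_const 2).log (rho3_pos hc e x).ne'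
  refine h3.congr_deriv ?_
  have h4 : 0 < √((c * Real.exp x) ^ 2 - 4 * e) := Real.sqrt_pos.mpr h0
  have h5 : 0 < c * Real.exp x := by positivity
  simp only [Pi.add_apply]
  generalize √((c * Real.exp x) ^ 2 - 4 * e) = q at *
  generalize c * Real.exp x = p at *
  field_simp
  ring

lemma farA'_bounds : c / √(c ^ 2 + 4 * |e|) ≤ c * Real.exp x / √((c * Real.exp x) ^ 2 - 4 * e) ∧
    c * Real.exp x / √((c * Real.exp x) ^ 2 - 4 * e) ≤ 3 := by
  have h4 : 0 < √((c * Real.exp x) ^ 2 - 4 * e) := Real.sqrt_pos.mpr (disc_pos hc he hx)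
  have h1 : 3 / 2 ≤ Real.exp x := exp_l2 ▸ Real.exp_le_exp.mpr hx
  constructor
  · rw [div_le_div_iff₀ (by positivity) h4, mul_assoc]
    apply mul_le_mul_of_nonneg_left _ hc.le
    rw [Real.sqrt_le_iff]
    refine ⟨by positivity, ?_⟩
    rw [mul_pow (Real.exp x), Real.sq_sqrt (by positivity)]
    have h2 : 1 ≤ Real.exp x ^ 2 := by nlinarith
    have h3 : |e| * 1 ≤ |e| * Real.exp x ^ 2 := by gcongr
    nlinarith [neg_abs_le e]
  · rw [div_le_iff₀ h4]
    have := Real.le_sqrt_of_sq_le (disc_ge hc he hx)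
    linarith

end far

lemma farA_strictMonoOn {c e : ℝ} (hc : 0 < c) (he : 2 * e ≤ c ^ 2) :
    StrictMonoOn (farA c e) (Ici l2) := by
  refine strictMonoOn_of_deriv_pos (convex_Ici l2)
    (fun x hx => (hasDerivAt_farA hc he hx).continuousAt.continuousWithinAt) ?_
  intro x hx
  have hx' : l2 ≤ x := mem_Ici.mp (interior_subset hx)
  rw [(hasDerivAt_farA hc he hx').deriv]
  exact div_pos (by positivity) (Real.sqrt_pos.mpr (disc_pos hc he hx'))

lemma farA_tendsto {c : ℝ} (hc : 0 < c) (e : ℝ) : Tendsto (farA c e) atTop atTop := by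
  refine tendsto_atTop_mono (f := fun x => Real.log (c / 2) + x) (fun x => ?_)
    (tendsto_atTop_add_const_left _ _ tendsto_id)
  have e1 : Real.log (c / 2) + x = Real.log (c / 2 * Real.exp x) := by
    rw [Real.log_mul (by positivity) (by positivity), Real.log_exp]
  show Real.log (c / 2) + x ≤ _
  rw [e1]
  apply Real.log_le_log (by positivity)
  unfold rho3
  have := Real.sqrt_nonneg ((c * Real.exp x) ^ 2 - 4 * e)
  linarith

noncomputable def midSlope (c e : ℝ) : ℝ := (farA c e l2 - Real.log 2 / 2) / l2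

noncomputable def midA (c e x : ℝ) : ℝ := Real.log 2 / 2 + midSlope c e * x

noncomputable def psiF (c e ρ : ℝ) : ℝ := (ρ ^ 2 + e) / (2 * c * ρ)

noncomputable def midPhi (c e x : ℝ) : ℝ := Real.arccos (psiF c e (Real.exp (midA c e x)))

lemma exp_half_log_two_sq : Real.exp (Real.log 2 / 2) ^ 2 = 2 := by
  rw [← Real.exp_nat_mul]
  have : ((2 : ℕ) : ℝ) * (Real.log 2 / 2) = Real.log 2 := by push_cast; ring
  rw [this, Real.exp_log two_pos]

lemma midA_l2 (c e : ℝ) : midA c e l2 = farA c e l2 := by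
  unfold midA midSlope
  rw [div_mul_cancel₀ _ l2_pos.ne']
  ring

lemma midSlope_pos {c e : ℝ} (hc : 0 < c) (h2 : 2 < rho3 c e l2 ^ 2) : 0 < midSlope c e := by
  apply div_pos _ l2_pos
  have := Real.log_lt_log two_pos h2
  rw [Real.log_pow] at this
  unfold farA
  push_cast at this
  linarith

lemma psiF_mem {c e σ x : ℝ} (hc : 0 < c) (he : 2 * e ≤ c ^ 2) (h2 : 2 < rho3 c e l2 ^ 2)
    (hσ : σ = 1 ∨ σ = -1) (hce : 2 + e = 2 * c * σ) (h0 : 0 ≤ x) (h1 : x ≤ l2) :
    psiF c e (Real.exp (midA c e x)) ∈ Ioo (-1 : ℝ) 1 := by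
  have ha := midSlope_pos hc h2
  have k1 : Real.exp (Real.log 2 / 2) ≤ Real.exp (midA c e x) := by
    apply Real.exp_le_exp.mpr
    unfold midA
    nlinarith
  have k2 : Real.exp (midA c e x) ≤ rho3 c e l2 := by
    rw [← Real.exp_log (rho3_pos hc e l2)]
    apply Real.exp_le_exp.mpr
    rw [← farA, ← midA_l2]
    unfold midA
    nlinarith
  have k3 := exp_half_log_two_sq
  have k4 := rho3_eq hc he le_rfl
  rw [exp_l2] at k4
  have k5 := rho3_pos hc e l2
  have k6 := Real.exp_pos (Real.log 2 / 2)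
  generalize Real.exp (Real.log 2 / 2) = p at *
  generalize Real.exp (midA c e x) = ρ at *
  generalize rho3 c e l2 = q at *
  have hp : 1 < p := by nlinarith
  have hσ1 : -1 ≤ σ := by rcases hσ with h | h <;> linarith
  have hσ2 : σ ≤ 1 := by rcases hσ with h | h <;> linarith
  have hρ : 0 < 2 * c * ρ := by
    have : 0 < ρ := by linarith
    positivity
  unfold psiF
  constructor
  · rw [lt_div_iff₀ hρ]
    have : 2 ≤ ρ ^ 2 := by nlinarith
    have : 0 < c * (σ + ρ) := mul_pos hc (by linarith)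
    nlinarith
  · rw [div_lt_one hρ]
    have j1 : (p - c) ^ 2 < c ^ 2 - e := by
      have : 0 < c * (p - σ) := mul_pos hc (by linarith)
      nlinarith
    have j2 : (q - c) ^ 2 < c ^ 2 - e := by nlinarith [mul_pos hc k5]
    rcases le_total ρ c with h | h
    · have : (ρ - c) ^ 2 ≤ (p - c) ^ 2 := by nlinarith
      nlinarith
    · have : (ρ - c) ^ 2 ≤ (q - c) ^ 2 := by nlinarith
      nlinarith

lemma psiF_far {c e x : ℝ} (hc : 0 < c) (he : 2 * e ≤ c ^ 2) (hx : l2 ≤ x) :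
    psiF c e (rho3 c e x) = Real.exp x / 2 := by
  have := rho3_pos hc e x
  unfold psiF
  rw [rho3_eq hc he hx]
  field_simp

lemma continuous_psi_mid {c : ℝ} (hc : 0 < c) (e : ℝ) :
    Continuous (fun x => psiF c e (Real.exp (midA c e x))) := by
  unfold psiF midA
  refine Continuous.div (by fun_prop) (by fun_prop) (fun x => by positivity)

/-- The derivative of the target angle in the middle zone. -/
noncomputable def midPhi' (c e x : ℝ) : ℝ :=
  -(1 / √(1 - psiF c e (Real.exp (midA c e x)) ^ 2)) *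
    ((Real.exp (midA c e x) ^ 2 - e) / (2 * c * Real.exp (midA c e x)) * midSlope c e)

lemma hasDerivAt_midA (c e x : ℝ) : HasDerivAt (midA c e) (midSlope c e) x :=
  (((hasDerivAt_id x).const_mul (midSlope c e)).const_add (Real.log 2 / 2)).congr_deriv
    (mul_one _)

lemma hasDerivAt_midPhi {c e x : ℝ} (hc : 0 < c)
    (h : psiF c e (Real.exp (midA c e x)) ∈ Ioo (-1 : ℝ) 1) :
    HasDerivAt (midPhi c e) (midPhi' c e x) x := by
  have h1 := (hasDerivAt_midA c e x).exp
  have h0 := Real.exp_pos (midA c e x)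
  have h2 : HasDerivAt (fun y => psiF c e (Real.exp (midA c e y)))
      ((Real.exp (midA c e x) ^ 2 - e) / (2 * c * Real.exp (midA c e x)) * midSlope c e) x := by
    refine (((h1.pow 2).add_const e).div (h1.const_mul (2 * c)) (by positivity)).congr_deriv ?_
    simp only [Pi.pow_apply, Nat.cast_ofNat, Nat.add_one_sub_one, pow_one]
    field_simp
    ring
  exact (Real.hasDerivAt_arccos h.1.ne' h.2.ne).comp x h2

lemma mid_bound {a : ℝ} (ha : 0 < a) {d φ ψ : ℝ → ℝ} (hd : ContinuousOn d (Icc 0 l2))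
    (hd0 : ∀ x ∈ Icc 0 l2, 0 < d x) (hφ : ContinuousOn φ (Icc 0 l2))
    (hψ : ContinuousOn ψ (Icc 0 l2)) :
    ∃ C, ∀ x ∈ Icc 0 l2, (max a (d x) + (|φ x| + d x * |ψ x|)) ^ 2 / (a * d x) ≤ C := by
  have h : ContinuousOn (fun x => (max a (d x) + (|φ x| + d x * |ψ x|)) ^ 2 / (a * d x))
      (Icc 0 l2) := by
    refine ContinuousOn.div ?_ (continuousOn_const.mul hd)
      (fun x hx => (mul_pos ha (hd0 x hx)).ne')
    exact ((continuousOn_const.sup hd).add (hφ.abs.add (hd.mul hψ.abs))).pow 2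
  obtain ⟨C, hC⟩ := isCompact_Icc.bddAbove_image h
  exact ⟨C, fun x hx => hC (mem_image_of_mem _ hx)⟩

end Pool.Agent.MP_8a3eee_an
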