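import Mathlib.Analysis.Real.Pi.Bounds
import Pool.Agent.MP_8a3eee_an.Polar
import Pool.Agent.MP_8a3eee_an.Zone23

set_option autoImplicit false

namespace Pool.Agent.MP_8a3eee_an

open Set Filter Topology
open scoped Real

noncomputable def bigA (lam : ℝ) (m : ℕ) (L0 c e : ℝ) : ℝ → ℝ :=
  glue 0 (radA lam m L0) (glue l2 (midA c e) (farA c e))

noncomputable def bigPsi (x : ℝ) : ℝ := Real.arccos (Real.exp (min x l2) / 2)

noncomputable def nearPhi (m : ℕ) (L0 σ x : ℝ) : ℝ :=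
  (1 - σ) * π / 2 + σ * Real.arctan (tau L0 x ^ m)

noncomputable def bigPhi (m : ℕ) (L0 c e σ : ℝ) : ℝ → ℝ :=
  glue 0 (nearPhi m L0 σ) (fun x => midPhi c e (min x l2))

lemma exp_min_le (x : ℝ) : Real.exp (min x l2) ≤ 3 / 2 :=
  exp_l2 ▸ Real.exp_le_exp.mpr (min_le_right _ _)

lemma bigPsi_mem (x : ℝ) : bigPsi x ∈ Ioo 0 π := by
  have h1 := exp_min_le x
  have h2 := Real.exp_pos (min x l2)
  exact ⟨Real.arccos_pos.mpr (by linarith), Real.arccos_lt_pi.mpr (by linarith)⟩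

lemma bigPsi_continuous : Continuous bigPsi := by
  unfold bigPsi
  exact Real.continuous_arccos.comp (by fun_prop)

lemma bigPsi_of_le {x : ℝ} (hx : x ≤ l2) : bigPsi x = Real.arccos (Real.exp x / 2) := by
  rw [bigPsi, min_eq_left hx]

lemma hasDerivAt_bigPsi {x : ℝ} (hx : x < l2) :
    HasDerivAt bigPsi (-(1 / √(1 - (Real.exp x / 2) ^ 2)) * (Real.exp x / 2)) x := by
  have h1 : Real.exp x < 2 := by
    have := Real.exp_lt_exp.mpr hx
    rw [exp_l2] at this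
    linarith
  refine (hasDerivAt_arccos_exp h1).congr_of_eventuallyEq ?_
  filter_upwards [Iio_mem_nhds hx] with y hy
  exact bigPsi_of_le (le_of_lt hy)

lemma lt_iff_cos {α β : ℝ} (h1 : α ∈ Icc 0 π) (h2 : β ∈ Icc 0 π) :
    α < β ↔ Real.cos β < Real.cos α :=
  (Real.strictAntiOn_cos.lt_iff_gt h2 h1).symm

lemma cos_abs_arg {w : ℂ} (hw : w ≠ 0) : ‖w‖ * Real.cos |w.arg| = w.re := by
  rw [Real.cos_abs, Complex.cos_arg hw, mul_div_cancel₀ _ (norm_ne_zero_iff.mpr hw)]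

lemma norm_sub_one_sq (w : ℂ) : ‖w - 1‖ ^ 2 = ‖w‖ ^ 2 - 2 * w.re + 1 := by
  rw [Complex.sq_norm, Complex.sq_norm, Complex.normSq_apply, Complex.normSq_apply]
  simp only [Complex.sub_re, Complex.one_re, Complex.sub_im, Complex.one_im]
  ring

lemma disk_iff {w : ℂ} (hw : w ≠ 0) : ‖w - 1‖ < 1 ↔ ‖w‖ / 2 < Real.cos |w.arg| := by
  have h0 := norm_pos_iff.mpr hw
  have h1 := cos_abs_arg hw
  rw [← sq_lt_one_iff₀ (norm_nonneg _), norm_sub_one_sq, ← h1]
  constructor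
  · intro h
    by_contra hc
    push Not at hc
    nlinarith
  · intro h
    nlinarith

lemma disk_iff' {w : ℂ} (hw : w ≠ 0) : 1 < ‖w - 1‖ ↔ Real.cos |w.arg| < ‖w‖ / 2 := by
  have h0 := norm_pos_iff.mpr hw
  have h1 := cos_abs_arg hw
  rw [← one_lt_sq_iff₀ (norm_nonneg _), norm_sub_one_sq, ← h1]
  constructor
  · intro h
    by_contra hc
    push Not at hc
    nlinarith
  · intro h
    nlinarith

lemma abs_arg_mem (w : ℂ) : |w.arg| ∈ Icc 0 π := ⟨abs_nonneg _, Complex.abs_arg_le_pi w⟩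

lemma cos_bigPsi {w : ℂ} (hw : w ≠ 0) (hx : Real.log ‖w‖ ≤ l2) :
    Real.cos (bigPsi (Real.log ‖w‖)) = ‖w‖ / 2 := by
  have h0 := norm_pos_iff.mpr hw
  have h1 := Real.exp_le_exp.mpr hx
  rw [exp_l2, Real.exp_log h0] at h1
  rw [bigPsi_of_le hx, Real.exp_log h0, Real.cos_arccos (by linarith) (by linarith)]

lemma disk_iff_arg {w : ℂ} (hw : w ≠ 0) (hx : Real.log ‖w‖ ≤ l2) :
    ‖w - 1‖ < 1 ↔ |w.arg| < bigPsi (Real.log ‖w‖) := by
  rw [disk_iff hw, lt_iff_cos (abs_arg_mem w) (Ioo_subset_Icc_self (bigPsi_mem _)),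
    cos_bigPsi hw hx]

lemma disk_iff_arg' {w : ℂ} (hw : w ≠ 0) (hx : Real.log ‖w‖ ≤ l2) :
    1 < ‖w - 1‖ ↔ bigPsi (Real.log ‖w‖) < |w.arg| := by
  rw [disk_iff' hw, lt_iff_cos (Ioo_subset_Icc_self (bigPsi_mem _)) (abs_arg_mem w),
    cos_bigPsi hw hx]

/-- The hypotheses on the parameters. -/
structure Params (lam : ℝ) (m : ℕ) (L0 c e σ : ℝ) : Prop where
  hlam : 0 < lam
  hm : 1 ≤ m
  hL : 2 ≤ L0
  hc : 0 < c
  he : 2 * e ≤ c ^ 2
  h2 : 2 < rho3 c e l2 ^ 2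
  hσ : σ = 1 ∨ σ = -1
  hce : 2 + e = 2 * c * σ

namespace Params

variable {lam : ℝ} {m : ℕ} {L0 c e σ : ℝ} (P : Params lam m L0 c e σ)
include P

lemma glue0 : radA lam m L0 0 = glue l2 (midA c e) (farA c e) 0 := by
  rw [radA_zero P.hL, glue_of_le l2_pos.le, midA, mul_zero, add_zero]

lemma inner_continuous : Continuous (glue l2 (midA c e) (farA c e)) :=
  glue_continuous (midA_l2 c e)
    (fun x _ => (hasDerivAt_midA c e x).continuousAt.continuousWithinAt)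
    (fun _ hx => (hasDerivAt_farA P.hc P.he hx).continuousAt.continuousWithinAt)

lemma inner_strictMono : StrictMono (glue l2 (midA c e) (farA c e)) := by
  refine glue_strictMono (midA_l2 c e) ?_ (farA_strictMonoOn P.hc P.he)
  intro x _ y _ hxy
  unfold midA
  have := midSlope_pos P.hc P.h2
  nlinarith

lemma A_continuous : Continuous (bigA lam m L0 c e) :=
  glue_continuous P.glue0
    (fun _ hx => (hasDerivAt_radA P.hL hx lam m).continuousAt.continuousWithinAt)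
    P.inner_continuous.continuousOn

lemma A_strictMono : StrictMono (bigA lam m L0 c e) :=
  glue_strictMono P.glue0 (radA_strictMonoOn P.hL P.hlam m) (P.inner_strictMono.strictMonoOn _)

lemma A_near {x : ℝ} (hx : x ≤ 0) : bigA lam m L0 c e x = radA lam m L0 x := glue_of_le hx

lemma A_mid {x : ℝ} (h0 : 0 ≤ x) (h1 : x ≤ l2) : bigA lam m L0 c e x = midA c e x := by
  rw [bigA, glue_of_ge P.glue0 h0, glue_of_le h1]

lemma A_far {x : ℝ} (h1 : l2 ≤ x) : bigA lam m L0 c e x = farA c e x := by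
  rw [bigA, glue_of_ge P.glue0 (l2_pos.le.trans h1), glue_of_ge (midA_l2 c e) h1]

lemma A_surjective : Function.Surjective (bigA lam m L0 c e) := by
  refine P.A_continuous.surjective ?_ ?_
  · refine (farA_tendsto P.hc e).congr' ?_
    filter_upwards [eventually_ge_atTop l2] with x hx
    exact (P.A_far hx).symm
  · refine (radA_tendsto P.hL P.hlam m).congr' ?_
    filter_upwards [eventually_le_atBot 0] with x hx
    exact (P.A_near hx).symm

lemma cos_nearPhi (x : ℝ) :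
    Real.cos (nearPhi m L0 σ x) = σ / √(1 + (tau L0 x ^ m) ^ 2) := by
  unfold nearPhi
  rcases P.hσ with h | h <;> subst h
  · simp [Real.cos_arctan]
  · have : (1 - -1) * π / 2 + -1 * Real.arctan (tau L0 x ^ m) =
        π - Real.arctan (tau L0 x ^ m) := by ring
    rw [this, Real.cos_pi_sub, Real.cos_arctan]
    ring

lemma nearPhi_mem {x : ℝ} (hx : x ≤ 0) : nearPhi m L0 σ x ∈ Ioo 0 π := by
  have h1 : 0 < Real.arctan (tau L0 x ^ m) := Real.arctan_pos.mpr (pow_pos (tau_pos P.hL hx) m)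
  have h2 := Real.arctan_lt_pi_div_two (tau L0 x ^ m)
  have h3 := Real.pi_pos
  unfold nearPhi
  rcases P.hσ with h | h <;> subst h <;> constructor <;> linarith

lemma psi_mem {x : ℝ} (h0 : 0 ≤ x) (h1 : x ≤ l2) :
    psiF c e (Real.exp (midA c e x)) ∈ Ioo (-1 : ℝ) 1 :=
  psiF_mem P.hc P.he P.h2 P.hσ P.hce h0 h1

lemma glue1 : nearPhi m L0 σ 0 = midPhi c e (min 0 l2) := by
  rw [min_eq_left l2_pos.le, midPhi, eq_comm]
  have h := P.nearPhi_mem le_rfl
  apply Real.arccos_eq_of_eq_cos h.1.le h.2.le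
  rw [P.cos_nearPhi, tau_zero P.hL, midA, mul_zero, add_zero, psiF, exp_half_log_two_sq, P.hce]
  have h1 : √(1 + ((1 : ℝ) ^ m) ^ 2) = Real.exp (Real.log 2 / 2) := by
    rw [Real.sqrt_eq_iff_mul_self_eq (by positivity) (Real.exp_pos _).le, ← sq,
      exp_half_log_two_sq]
    norm_num
  rw [h1]
  have := P.hc
  field_simp

lemma Phi_near {x : ℝ} (hx : x ≤ 0) : bigPhi m L0 c e σ x = nearPhi m L0 σ x := glue_of_le hx

lemma Phi_mid {x : ℝ} (h0 : 0 ≤ x) (h1 : x ≤ l2) : bigPhi m L0 c e σ x = midPhi c e x := by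
  rw [bigPhi, glue_of_ge P.glue1 h0, min_eq_left h1]

lemma Phi_far {x : ℝ} (h1 : l2 ≤ x) : bigPhi m L0 c e σ x = bigPsi x := by
  rw [bigPhi, glue_of_ge P.glue1 (l2_pos.le.trans h1), bigPsi, min_eq_right h1, midPhi, midA_l2,
    farA, Real.exp_log (rho3_pos P.hc e l2), psiF_far P.hc P.he le_rfl]

lemma midPhi_mem {x : ℝ} (h0 : 0 ≤ x) (h1 : x ≤ l2) : midPhi c e x ∈ Ioo 0 π :=
  ⟨Real.arccos_pos.mpr (P.psi_mem h0 h1).2, Real.arccos_lt_pi.mpr (P.psi_mem h0 h1).1⟩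

lemma Phi_mem (x : ℝ) : bigPhi m L0 c e σ x ∈ Ioo 0 π := by
  rcases le_total x 0 with h | h
  · rw [P.Phi_near h]
    exact P.nearPhi_mem h
  · rcases le_total x l2 with h1 | h1
    · rw [P.Phi_mid h h1]
      exact P.midPhi_mem h h1
    · rw [P.Phi_far h1]
      exact bigPsi_mem x

lemma midPhi_continuous : Continuous (midPhi c e) :=
  Real.continuous_arccos.comp (continuous_psi_mid P.hc e)

lemma hasDerivAt_nearPhi {x : ℝ} (hx : x ≤ 0) :
    ∃ φ, HasDerivAt (nearPhi m L0 σ) φ x ∧ |φ| ≤ m * gam L0 x := by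
  obtain ⟨φ, h1, h2⟩ := hasDerivAt_arctan_tau P.hL hx m
  refine ⟨σ * φ, (h1.const_mul σ).const_add _, ?_⟩
  rcases P.hσ with h | h <;> subst h <;> simpa using h2

lemma Phi_continuous : Continuous (bigPhi m L0 c e σ) :=
  glue_continuous P.glue1
    (fun _ hx => (P.hasDerivAt_nearPhi hx).choose_spec.1.continuousAt.continuousWithinAt)
    (P.midPhi_continuous.comp (continuous_id.min continuous_const)).continuousOn

/-- The homeomorphism. -/
noncomputable def F : ℂ ≃ₜ ℂ :=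
  polHomeo (StrictMono.orderIsoOfSurjective _ P.A_strictMono P.A_surjective) bigPsi
    (bigPhi m L0 c e σ) bigPsi_mem P.Phi_mem bigPsi_continuous P.Phi_continuous

lemma F_eq : ⇑P.F = polMap (bigA lam m L0 c e) bigPsi (bigPhi m L0 c e σ) := rfl

lemma F_zero : P.F 0 = 0 := polMap_zero

lemma disk_iff_re {w : ℂ} (hw : w ≠ 0) (hx : Real.log ‖w‖ ≤ l2) :
    ‖w - 1‖ < 1 ↔ ‖P.F w‖ * Real.cos (bigPhi m L0 c e σ (Real.log ‖w‖)) < (P.F w).re := by
  have hF : P.F w ≠ 0 := polMap_ne_zero hw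
  rw [disk_iff_arg hw hx, ← angMap_lt_iff (bigPsi_mem _) (P.Phi_mem (Real.log ‖w‖)),
    ← abs_arg_polMap (A := bigA lam m L0 c e) bigPsi_mem P.Phi_mem hw,
    lt_iff_cos (abs_arg_mem _) (Ioo_subset_Icc_self (P.Phi_mem _)), ← cos_abs_arg hF,
    mul_lt_mul_iff_right₀ (norm_pos_iff.mpr hF), P.F_eq]

lemma psi_lt_iff {ρ y : ℝ} (hρ : 0 < ρ) : ρ * psiF c e ρ < y ↔ ρ ^ 2 + e < 2 * c * y := by
  have := P.hc
  have e1 : ρ * psiF c e ρ = (ρ ^ 2 + e) / (2 * c) := by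
    unfold psiF
    field_simp
  rw [e1, div_lt_iff₀ (by positivity), mul_comm y]

lemma image_cases {s : ℝ} (hs : lam * s = m) {w : ℂ} (hw : w ≠ 0) :
    (∃ t, 0 < t ∧ t ≤ 1 ∧ ‖P.F w‖ ^ 2 = t ^ 2 * (1 + (t ^ s) ^ 2) ∧
      (‖w - 1‖ < 1 ↔ σ * t < (P.F w).re)) ∨
    (2 ≤ ‖P.F w‖ ^ 2 ∧ (‖w - 1‖ < 1 ↔ ‖P.F w‖ ^ 2 + e < 2 * c * (P.F w).re)) := by
  have hn : ‖P.F w‖ = Real.exp (bigA lam m L0 c e (Real.log ‖w‖)) := norm_polMap hw
  rcases le_total (Real.log ‖w‖) 0 with h | h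
  · left
    have t0 := tau_pos P.hL h
    have e1 : (tau L0 (Real.log ‖w‖) ^ lam) ^ s = tau L0 (Real.log ‖w‖) ^ m := by
      rw [← Real.rpow_mul t0.le, hs, Real.rpow_natCast]
    have e2 : ‖P.F w‖ = tau L0 (Real.log ‖w‖) ^ lam * √(1 + (tau L0 (Real.log ‖w‖) ^ m) ^ 2) := by
      rw [hn, P.A_near h, radA, Real.exp_add, Real.rpow_def_of_pos t0, mul_comm lam,
        Real.sqrt_eq_rpow, Real.rpow_def_of_pos (by positivity), mul_one_div]
    refine ⟨tau L0 (Real.log ‖w‖) ^ lam, Real.rpow_pos_of_pos t0 _,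
      Real.rpow_le_one t0.le (tau_le_one P.hL h) P.hlam.le, ?_, ?_⟩
    · rw [e1, e2, mul_pow, Real.sq_sqrt (by positivity)]
    · rw [P.disk_iff_re hw (h.trans l2_pos.le), P.Phi_near h, P.cos_nearPhi, e2]
      have : 0 < √(1 + (tau L0 (Real.log ‖w‖) ^ m) ^ 2) := by positivity
      have e3 : tau L0 (Real.log ‖w‖) ^ lam * √(1 + (tau L0 (Real.log ‖w‖) ^ m) ^ 2) *
          (σ / √(1 + (tau L0 (Real.log ‖w‖) ^ m) ^ 2)) = σ * tau L0 (Real.log ‖w‖) ^ lam := by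
        field_simp
      rw [e3]
  · right
    have hF : P.F w ≠ 0 := polMap_ne_zero hw
    refine ⟨?_, ?_⟩
    · have h1 := P.A_strictMono.monotone h
      rw [P.A_near le_rfl, radA_zero P.hL] at h1
      rw [hn, ← exp_half_log_two_sq]
      gcongr
    · rw [← P.psi_lt_iff (norm_pos_iff.mpr hF)]
      rcases le_total (Real.log ‖w‖) l2 with h1 | h1
      · rw [P.disk_iff_re hw h1, P.Phi_mid h h1, midPhi,
          Real.cos_arccos (P.psi_mem h h1).1.le (P.psi_mem h h1).2.le, hn, P.A_mid h h1]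
      · have e1 : psiF c e ‖P.F w‖ = ‖w‖ / 2 := by
          rw [hn, P.A_far h1, farA, Real.exp_log (rho3_pos P.hc _ _), psiF_far P.hc P.he h1,
            Real.exp_log (norm_pos_iff.mpr hw)]
        have e2 : |(P.F w).arg| = |w.arg| := by
          rw [P.F_eq, abs_arg_polMap bigPsi_mem P.Phi_mem hw, P.Phi_far h1,
            angMap_self (bigPsi_mem _)]
        rw [disk_iff hw, e1, ← cos_abs_arg hF, e2, mul_lt_mul_iff_right₀ (norm_pos_iff.mpr hF)]

lemma far_bound : ∃ C, ∀ w : ℂ, w.im ≠ 0 → l2 < Real.log ‖w‖ →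
    ∃ D : ℂ →L[ℝ] ℂ, HasFDerivAt P.F D w ∧ 0 < D.det ∧ ‖D‖ ^ 2 / D.det ≤ C := by
  refine ⟨9 / (c / √(c ^ 2 + 4 * |e|)), fun w hw hx => ?_⟩
  have hc := P.hc
  obtain ⟨b1, b2⟩ := farA'_bounds P.hc P.he hx.le
  have h0 : 0 < c / √(c ^ 2 + 4 * |e|) := by positivity
  have hA : HasDerivAt (bigA lam m L0 c e) _ (Real.log ‖w‖) :=
    (hasDerivAt_farA P.hc P.he hx.le).congr_of_eventuallyEq (by
      filter_upwards [Ioi_mem_nhds hx] with y hy
      exact P.A_far (le_of_lt hy))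
  obtain ⟨D, h1, h2, h3⟩ := polMap_deriv_far (Φ := bigPhi m L0 c e σ) hw bigPsi_mem hA
    (h0.trans_le b1) (by
      filter_upwards [Ioi_mem_nhds hx] with y hy
      exact P.Phi_far (le_of_lt hy))
  refine ⟨D, h1, h2, h3.trans ?_⟩
  have h4 : max (c * Real.exp (Real.log ‖w‖) / √((c * Real.exp (Real.log ‖w‖)) ^ 2 - 4 * e)) 1
      ≤ 3 := max_le b2 (by norm_num)
  have h5 := pow_le_pow_left₀ (le_max_of_le_right zero_le_one) h4 2
  exact div_le_div₀ (by norm_num) (by linarith) h0 b1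

lemma mid_bound' : ∃ C, ∀ w : ℂ, w.im ≠ 0 → 0 < Real.log ‖w‖ → Real.log ‖w‖ < l2 →
    ‖w - 1‖ ≠ 1 → ∃ D : ℂ →L[ℝ] ℂ, HasFDerivAt P.F D w ∧ 0 < D.det ∧ ‖D‖ ^ 2 / D.det ≤ C := by
  have ha := midSlope_pos P.hc P.h2
  have hc := P.hc
  have hφ : ContinuousOn (midPhi' c e) (Icc 0 l2) := by
    have h1 := continuous_psi_mid P.hc e
    have h2 : Continuous (midA c e) := by unfold midA; fun_prop
    unfold midPhi'
    refine ContinuousOn.mul (ContinuousOn.neg (ContinuousOn.div continuousOn_const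
      (continuous_const.sub (h1.pow 2)).sqrt.continuousOn ?_)) (Continuous.continuousOn ?_)
    · intro x hx
      have := P.psi_mem hx.1 hx.2
      exact (Real.sqrt_pos.mpr (by nlinarith [this.1, this.2])).ne'
    · exact (Continuous.div (by fun_prop) (by fun_prop) (fun x => by positivity)).mul
        continuous_const
  have hψ : ContinuousOn (fun x => -(1 / √(1 - (Real.exp x / 2) ^ 2)) * (Real.exp x / 2))
      (Icc 0 l2) := by
    refine ContinuousOn.mul (ContinuousOn.neg (ContinuousOn.div continuousOn_const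
      (by fun_prop) ?_)) (by fun_prop)
    intro x hx
    have h1 := Real.exp_le_exp.mpr hx.2
    rw [exp_l2] at h1
    exact (Real.sqrt_pos.mpr (by nlinarith [Real.exp_pos x])).ne'
  obtain ⟨C1, hC1⟩ := mid_bound ha (d := fun x => bigPhi m L0 c e σ x / bigPsi x)
    (P.Phi_continuous.div bigPsi_continuous (fun x => (bigPsi_mem x).1.ne')).continuousOn
    (fun x _ => div_pos (P.Phi_mem x).1 (bigPsi_mem x).1) hφ hψ
  obtain ⟨C2, hC2⟩ := mid_bound ha (d := fun x => (π - bigPhi m L0 c e σ x) / (π - bigPsi x))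
    ((continuous_const.sub P.Phi_continuous).div (continuous_const.sub bigPsi_continuous)
      (fun x => (sub_pos.mpr (bigPsi_mem x).2).ne')).continuousOn
    (fun x _ => div_pos (sub_pos.mpr (P.Phi_mem x).2) (sub_pos.mpr (bigPsi_mem x).2)) hφ hψ
  refine ⟨max C1 C2, fun w hw h0 h1 hne => ?_⟩
  have hw0 : w ≠ 0 := fun h => hw (by simp [h])
  have hA : HasDerivAt (bigA lam m L0 c e) _ (Real.log ‖w‖) :=
    (hasDerivAt_midA c e _).congr_of_eventuallyEq (by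
      filter_upwards [Ioo_mem_nhds h0 h1] with y hy
      exact P.A_mid hy.1.le hy.2.le)
  have hΦ : HasDerivAt (bigPhi m L0 c e σ) _ (Real.log ‖w‖) :=
    (hasDerivAt_midPhi P.hc (P.psi_mem h0.le h1.le)).congr_of_eventuallyEq (by
      filter_upwards [Ioo_mem_nhds h0 h1] with y hy
      exact P.Phi_mid hy.1.le hy.2.le)
  rcases lt_or_gt_of_ne hne with h | h
  · obtain ⟨D, d1, d2, d3⟩ := polMap_deriv_in hw bigPsi_mem P.Phi_mem hA (hasDerivAt_bigPsi h1) hΦ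
      ha ((disk_iff_arg hw0 h1.le).mp h)
    exact ⟨D, d1, d2, d3.trans ((hC1 _ ⟨h0.le, h1.le⟩).trans (le_max_left _ _))⟩
  · obtain ⟨D, d1, d2, d3⟩ := polMap_deriv_out hw bigPsi_mem P.Phi_mem hA (hasDerivAt_bigPsi h1)
      hΦ ha ((disk_iff_arg' hw0 h1.le).mp h)
    exact ⟨D, d1, d2, d3.trans ((hC2 _ ⟨h0.le, h1.le⟩).trans (le_max_right _ _))⟩

lemma near_bound : ∃ C, ∀ w : ℂ, w.im ≠ 0 → Real.log ‖w‖ < 0 → ‖w - 1‖ ≠ 1 →
    ∃ D : ℂ →L[ℝ] ℂ, HasFDerivAt P.F D w ∧ 0 < D.det ∧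
      (((σ = 1 ↔ 1 < ‖w - 1‖) ∧ lam * (‖D‖ ^ 2 / D.det) ≤ 2 * uu L0 (Real.log ‖w‖) + C) ∨
      ((σ = 1 ↔ ‖w - 1‖ < 1) ∧ ‖D‖ ^ 2 / D.det ≤ 16 * (1 + m / lam) ^ 2 * (lam + m) /
        (uu L0 (Real.log ‖w‖) * tau L0 (Real.log ‖w‖) ^ m) + 24 * uu L0 0 / lam)) := by
  obtain ⟨C, hC⟩ := wide_bound P.hlam m P.hL
  refine ⟨C, fun w hw hx hne => ?_⟩
  have hw0 : w ≠ 0 := fun h => hw (by simp [h])
  have hx2 : Real.log ‖w‖ < l2 := hx.trans l2_pos
  have hA : HasDerivAt (bigA lam m L0 c e) _ (Real.log ‖w‖) :=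
    (hasDerivAt_radA P.hL hx.le lam m).congr_of_eventuallyEq (glue_eventually_left hx)
  obtain ⟨φ, hφ, hφb⟩ := P.hasDerivAt_nearPhi hx.le
  have hΦ : HasDerivAt (bigPhi m L0 c e σ) φ (Real.log ‖w‖) :=
    hφ.congr_of_eventuallyEq (glue_eventually_left hx)
  have ha : 0 < radA' lam m L0 (Real.log ‖w‖) :=
    (mul_pos P.hlam (gam_pos P.hL hx.le)).trans_le (le_radA' P.hL hx.le lam m)
  have hψ := abs_deriv_arccos_exp hx.le
  have r0 := Real.exp_pos (Real.log ‖w‖)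
  have r1 : Real.exp (Real.log ‖w‖) ≤ 1 := Real.exp_le_one_iff.mpr hx.le
  obtain ⟨p1, p2, p3⟩ := arccos_bounds r0 r1
  rw [← bigPsi_of_le hx2.le] at p1 p2 p3
  have T0 : 0 < tau L0 (Real.log ‖w‖) ^ m := pow_pos (tau_pos P.hL hx.le) m
  obtain ⟨q1, q2, q3⟩ := arctan_bounds T0
    (pow_le_one₀ (tau_pos P.hL hx.le).le (tau_le_one P.hL hx.le))
  have hpi := Real.pi_gt_three
  have hpi' := Real.pi_lt_four
  have eΦ := P.Phi_near hx.le
  unfold nearPhi at eΦ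
  rcases lt_or_gt_of_ne hne with h | h
  · obtain ⟨D, d1, d2, d3⟩ := polMap_deriv_in hw bigPsi_mem P.Phi_mem hA (hasDerivAt_bigPsi hx2) hΦ
      ha ((disk_iff_arg hw0 hx2.le).mp h)
    refine ⟨D, d1, d2, ?_⟩
    rcases P.hσ with hs | hs
    · right
      refine ⟨by simp [hs, h], d3.trans (narrow_bound P.hlam P.hm P.hL hx.le ?_ ?_ hφb hψ)⟩
      · rw [eΦ, hs, le_div_iff₀ (by linarith)]
        nlinarith
      · rw [eΦ, hs, div_le_iff₀ (by linarith)]
        nlinarith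
    · left
      refine ⟨⟨fun h1 => by linarith, fun h1 => by linarith⟩,
        (mul_le_mul_of_nonneg_left d3 P.hlam.le).trans (hC _ hx.le _ _ _ ?_ ?_ hφb hψ)⟩
      · rw [eΦ, hs, le_div_iff₀ (by linarith)]
        linarith
      · rw [eΦ, hs, div_le_iff₀ (by linarith)]
        have k1 : (2 + 2 * Real.exp (Real.log ‖w‖)) * (π / 2 * (1 - Real.exp (Real.log ‖w‖) / 2))
            ≤ (2 + 2 * Real.exp (Real.log ‖w‖)) * bigPsi (Real.log ‖w‖) := by gcongr
        have k2 : 0 ≤ π * (Real.exp (Real.log ‖w‖) * (1 - Real.exp (Real.log ‖w‖))) := by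
          have : 0 ≤ 1 - Real.exp (Real.log ‖w‖) := by linarith
          positivity
        nlinarith
  · obtain ⟨D, d1, d2, d3⟩ := polMap_deriv_out hw bigPsi_mem P.Phi_mem hA (hasDerivAt_bigPsi hx2)
      hΦ ha ((disk_iff_arg' hw0 hx2.le).mp h)
    refine ⟨D, d1, d2, ?_⟩
    rcases P.hσ with hs | hs
    · left
      refine ⟨by simp [hs, h],
        (mul_le_mul_of_nonneg_left d3 P.hlam.le).trans (hC _ hx.le _ _ _ ?_ ?_ hφb hψ)⟩
      · rw [eΦ, hs, le_div_iff₀ (by linarith)]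
        linarith
      · rw [eΦ, hs, div_le_iff₀ (by linarith)]
        nlinarith
    · right
      refine ⟨⟨fun h1 => by linarith, fun h1 => by linarith⟩,
        d3.trans (narrow_bound P.hlam P.hm P.hL hx.le ?_ ?_ hφb hψ)⟩
      · rw [eΦ, hs, le_div_iff₀ (by linarith)]
        nlinarith
      · rw [eΦ, hs, div_le_iff₀ (by linarith)]
        nlinarith

end Params

end Pool.Agent.MP_8a3eee_an
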