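import Mathlib.Algebra.Ring.IsFormallyReal
import Mathlib.MeasureTheory.Constructions.HaarToSphere
import Mathlib.RingTheory.PiTensorProduct
import Pool.Agent.MP_8a3eee_an.Geometry
import Pool.Agent.MP_8a3eee_an.Core

set_option autoImplicit false

namespace Pool.Agent.MP_8a3eee_an

open Set Filter Topology MeasureTheory

lemma finite_quad (a q : ℝ) : {x : ℝ | (x + a) ^ 2 = q}.Finite := by
  refine (toFinite {√q - a, -√q - a}).subset ?_
  intro x hx
  have hx' : (x + a) ^ 2 = q := hx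
  have h1 : √q = |x + a| := by rw [← hx', Real.sqrt_sq_eq_abs]
  rcases abs_choice (x + a) with h | h
  · left
    rw [h1, h]
    ring
  · right
    rw [mem_singleton_iff, h1, h]
    ring

/-- The exceptional set: the real axis and three circles. -/
def badSet : Set ℂ := {z | z.im = 0 ∨ ‖z + 1‖ = 1 ∨ ‖z + 1‖ = 3 / 2 ∨ ‖z‖ = 1}

lemma badSet_measurable : MeasurableSet badSet := by
  apply IsClosed.measurableSet
  refine (isClosed_eq Complex.continuous_im continuous_const).union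
    ((isClosed_eq (by fun_prop) continuous_const).union
    ((isClosed_eq (by fun_prop) continuous_const).union
    (isClosed_eq continuous_norm continuous_const)))

lemma badSet_cases {x y : ℝ} (h : (⟨x, y⟩ : ℂ) ∈ badSet) :
    y = 0 ∨ (x + 1) ^ 2 + y ^ 2 = 1 ∨ (x + 1) ^ 2 + y ^ 2 = 9 / 4 ∨ x ^ 2 + y ^ 2 = 1 := by
  have e1 : ‖(⟨x, y⟩ : ℂ) + 1‖ ^ 2 = (x + 1) ^ 2 + y ^ 2 := by rw [norm_sq_eq]; simp
  have e2 : ‖(⟨x, y⟩ : ℂ)‖ ^ 2 = x ^ 2 + y ^ 2 := by rw [norm_sq_eq]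
  rcases h with h | h | h | h
  · exact Or.inl h
  · rw [h] at e1
    exact Or.inr (Or.inl (by linarith))
  · rw [h] at e1
    exact Or.inr (Or.inr (Or.inl (by linarith)))
  · rw [h] at e2
    exact Or.inr (Or.inr (Or.inr (by linarith)))

lemma badSet_horizontal : ∀ᵐ y : ℝ, {x : ℝ | (⟨x, y⟩ : ℂ) ∈ badSet}.Countable := by
  filter_upwards [compl_mem_ae_iff.mpr (measure_singleton (0 : ℝ))] with y hy
  refine (((finite_quad 1 (1 - y ^ 2)).union ((finite_quad 1 (9 / 4 - y ^ 2)).union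
    (finite_quad 0 (1 - y ^ 2)))).subset ?_).countable
  intro x hx
  rcases badSet_cases hx with h | h | h | h
  · exact (hy h).elim
  · exact Or.inl (by simp only [mem_ofPred_eq]; linarith)
  · exact Or.inr (Or.inl (by simp only [mem_ofPred_eq]; linarith))
  · exact Or.inr (Or.inr (by simp only [mem_ofPred_eq, add_zero]; linarith))

lemma badSet_vertical : ∀ᵐ x : ℝ, {y : ℝ | (⟨x, y⟩ : ℂ) ∈ badSet}.Countable := by
  refine Eventually.of_forall fun x => ?_
  refine (((finite_quad 0 0).union ((finite_quad 0 (1 - (x + 1) ^ 2)).union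
    ((finite_quad 0 (9 / 4 - (x + 1) ^ 2)).union (finite_quad 0 (1 - x ^ 2))))).subset
    ?_).countable
  intro y hy
  rcases badSet_cases hy with h | h | h | h
  · exact Or.inl (by simp [h])
  · exact Or.inr (Or.inl (by simp only [mem_ofPred_eq, add_zero]; linarith))
  · exact Or.inr (Or.inr (Or.inl (by simp only [mem_ofPred_eq, add_zero]; linarith)))
  · exact Or.inr (Or.inr (Or.inr (by simp only [mem_ofPred_eq, add_zero]; linarith)))

lemma integrableOn_log_sq {L0 : ℝ} (hL : 2 ≤ L0) :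
    IntegrableOn (fun y : ℝ => 1 / (y * (L0 - Real.log y) ^ 2)) (Ioc 0 1) := by
  have hder : ∀ y ∈ Ioc (0 : ℝ) 1, HasDerivAt (fun y => if y = 0 then 0 else (L0 - Real.log y)⁻¹)
      (1 / (y * (L0 - Real.log y) ^ 2)) y := by
    intro y hy
    have h1 : 0 < L0 - Real.log y := by linarith [Real.log_nonpos hy.1.le hy.2]
    have h2 := (((Real.hasDerivAt_log hy.1.ne').const_sub L0).inv h1.ne')
    refine (h2.congr_deriv ?_).congr_of_eventuallyEq ?_
    · have := hy.1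
      field_simp
    · filter_upwards [isOpen_ne.mem_nhds hy.1.ne'] with z hz
      exact if_neg hz
  refine intervalIntegral.integrableOn_deriv_of_nonneg
    (g := fun y => if y = 0 then 0 else (L0 - Real.log y)⁻¹) ?_
    (fun y hy => hder y ⟨hy.1, hy.2.le⟩) (fun y hy => by have := hy.1; positivity)
  intro y hy
  rcases hy.1.lt_or_eq with h | h
  · exact (hder y ⟨h, hy.2⟩).continuousAt.continuousWithinAt
  · subst h
    refine ContinuousWithinAt.mono ?_ Icc_subset_Ici_self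
    rw [← continuousWithinAt_Ioi_iff_Ici, ContinuousWithinAt, if_pos rfl]
    have h1 : Tendsto (fun y => (L0 - Real.log y)⁻¹) (𝓝[>] 0) (𝓝 0) :=
      tendsto_inv_atTop_zero.comp (tendsto_atTop_add_const_left _ L0
        (tendsto_neg_atBot_atTop.comp Real.tendsto_log_nhdsGT_zero))
    refine h1.congr' ?_
    filter_upwards [self_mem_nhdsWithin] with z hz
    exact (if_neg (ne_of_gt hz)).symm

/-- The singular part of the majorant. -/
noncomputable def sing (L0 : ℝ) (w : ℂ) : ℝ :=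
  (Metric.ball (0 : ℂ) 1).indicator (fun w => 1 / (‖w‖ ^ 2 * (L0 - Real.log ‖w‖) ^ 2)) w

lemma integrable_sing {L0 : ℝ} (hL : 2 ≤ L0) : Integrable (sing L0) := by
  refine (integrable_indicator_iff measurableSet_ball).mpr ?_
  rw [integrableOn_fun_norm_addHaar volume (f := fun y => 1 / (y ^ 2 * (L0 - Real.log y) ^ 2))]
  refine ((integrableOn_log_sq hL).mono_set Ioo_subset_Ioc_self).congr_fun ?_ measurableSet_Ioo
  intro y hy
  have := hy.1
  simp only [Complex.finrank_real_complex, smul_eq_mul]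
  norm_num
  field_simp

lemma sing_nonneg (L0 : ℝ) (w : ℂ) : 0 ≤ sing L0 w :=
  indicator_nonneg (fun _ _ => by positivity) w

lemma exp_uu {L0 : ℝ} (hL : 2 ≤ L0) {w : ℂ} (hw : w ≠ 0) (h : ‖w‖ < 1) (C : ℝ) :
    Real.exp (2 * uu L0 (Real.log ‖w‖) + C) = Real.exp (2 * L0 + C) * sing L0 w := by
  have h0 := norm_pos_iff.mpr hw
  have h1 : 0 < L0 - Real.log ‖w‖ := by linarith [Real.log_nonpos h0.le h.le]
  rw [sing, indicator_of_mem (mem_ball_zero_iff.mpr h), uu]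
  have e1 : 2 * (L0 - Real.log ‖w‖ - Real.log (L0 - Real.log ‖w‖)) + C =
      2 * L0 + C - Real.log (‖w‖ ^ 2 * (L0 - Real.log ‖w‖) ^ 2) := by
    rw [Real.log_mul (by positivity) (by positivity), Real.log_pow, Real.log_pow]
    push_cast
    ring
  rw [e1, Real.exp_sub, Real.exp_log (by positivity), mul_one_div]

namespace Params

variable {lam : ℝ} {m : ℕ} {L0 c e σ : ℝ} (P : Params lam m L0 c e σ)
include P

lemma sigma_ne : σ ≠ 0 := by rcases P.hσ with h | h <;> rw [h] <;> norm_num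

/-- The final map. -/
noncomputable def f : ℂ ≃ₜ ℂ :=
  (Homeomorph.addRight 1).trans (P.F.trans (Homeomorph.smulOfNeZero σ P.sigma_ne))

lemma f_apply (z : ℂ) : P.f z = σ • P.F (z + 1) := rfl

lemma f_deriv {z : ℂ} {D : ℂ →L[ℝ] ℂ} (h : HasFDerivAt P.F D (z + 1)) :
    HasFDerivAt P.f (σ • D) z ∧ (σ • D).det = D.det ∧ ‖σ • D‖ = ‖D‖ := by
  refine ⟨?_, ?_, ?_⟩
  · have := (h.comp z ((hasFDerivAt_id z).add_const 1)).const_smul σ
    rw [ContinuousLinearMap.comp_id] at this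
    exact this
  · rw [det_formula, det_formula]
    rcases P.hσ with h | h <;> simp [h]
  · rw [norm_smul]
    rcases P.hσ with h | h <;> simp [h]

lemma f_bound : ∃ C, ∀ z ∉ badSet, ∃ D : ℂ →L[ℝ] ℂ, HasFDerivAt P.f D z ∧ 0 < D.det ∧
    (‖D‖ ^ 2 / D.det ≤ C ∨ (z + 1 ≠ 0 ∧ ‖z + 1‖ < 1 ∧
      (((σ = 1 ↔ 1 < ‖z‖) ∧ lam * (‖D‖ ^ 2 / D.det) ≤ 2 * uu L0 (Real.log ‖z + 1‖) + C) ∨
      ‖D‖ ^ 2 / D.det ≤ 16 * (1 + m / lam) ^ 2 * (lam + m) /
        (uu L0 (Real.log ‖z + 1‖) * tau L0 (Real.log ‖z + 1‖) ^ m) + 24 * uu L0 0 / lam))) := by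
  obtain ⟨C1, h1⟩ := P.near_bound
  obtain ⟨C2, h2⟩ := P.mid_bound'
  obtain ⟨C3, h3⟩ := P.far_bound
  refine ⟨max C1 (max C2 C3), fun z hz => ?_⟩
  simp only [badSet, mem_ofPred_eq, not_or] at hz
  obtain ⟨z1, z2, z3, z4⟩ := hz
  have w1 : (z + 1).im ≠ 0 := by simpa using z1
  have w0 : z + 1 ≠ 0 := fun h => w1 (by simp [h])
  have w2 := norm_pos_iff.mpr w0
  have w4 : ‖z + 1 - 1‖ ≠ 1 := by simpa using z4
  rcases lt_or_gt_of_ne z2 with h | h
  · obtain ⟨D, d1, d2, d3⟩ := h1 (z + 1) w1 (Real.log_neg w2 h) w4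
    obtain ⟨e1, e2, e3⟩ := P.f_deriv d1
    refine ⟨_, e1, e2 ▸ d2, Or.inr ⟨w0, h, ?_⟩⟩
    rw [e2, e3]
    rw [add_sub_cancel_right] at d3
    rcases d3 with d3 | d3
    · exact Or.inl ⟨d3.1, d3.2.trans (by gcongr; exact le_max_left _ _)⟩
    · exact Or.inr d3.2
  · rcases lt_or_gt_of_ne z3 with h' | h'
    · obtain ⟨D, d1, d2, d3⟩ := h2 (z + 1) w1 (Real.log_pos h) (Real.log_lt_log w2 h') w4
      obtain ⟨e1, e2, e3⟩ := P.f_deriv d1
      refine ⟨_, e1, e2 ▸ d2, Or.inl ?_⟩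
      rw [e2, e3]
      exact d3.trans ((le_max_left _ _).trans (le_max_right _ _))
    · obtain ⟨D, d1, d2, d3⟩ := h3 (z + 1) w1 (Real.log_lt_log (by norm_num) h')
      obtain ⟨e1, e2, e3⟩ := P.f_deriv d1
      refine ⟨_, e1, e2 ▸ d2, Or.inl ?_⟩
      rw [e2, e3]
      exact d3.trans ((le_max_right _ _).trans (le_max_right _ _))

theorem f_main (hn : ∃ C, ∀ x ≤ 0, lam * (16 * (1 + m / lam) ^ 2 * (lam + m) /
      (uu L0 x * tau L0 x ^ m) + 24 * uu L0 0 / lam) ≤ 2 * uu L0 x + C) :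
    FiniteDistortion P.f (fderiv ℝ P.f) ∧
      LocallyIntegrable (fun z => Real.exp (lam * distortion (fderiv ℝ P.f) z)) volume := by
  obtain ⟨C, hC⟩ := P.f_bound
  obtain ⟨C', hC'⟩ := hn
  refine assembly P.f badSet badSet_measurable badSet_horizontal badSet_vertical lam P.hlam
    (fun z => Real.exp (lam * C) + Real.exp (2 * L0 + max C C') * sing L0 (z + 1)) ?_ ?_
  · exact (locallyIntegrable_const _).add
      (((integrable_sing P.hL).comp_add_right 1).const_mul _).locallyIntegrable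
  · intro z hz
    obtain ⟨D, d1, d2, d3⟩ := hC z hz
    refine ⟨D, d1, d2, ?_⟩
    have s0 := mul_nonneg (Real.exp_pos (2 * L0 + max C C')).le (sing_nonneg L0 (z + 1))
    rcases d3 with d3 | ⟨w0, w1, d3⟩
    · have := Real.exp_le_exp.mpr (mul_le_mul_of_nonneg_left d3 P.hlam.le)
      linarith
    · have h1 : lam * (‖D‖ ^ 2 / D.det) ≤ 2 * uu L0 (Real.log ‖z + 1‖) + max C C' := by
        rcases d3 with d3 | d3
        · exact d3.2.trans (by gcongr; exact le_max_left _ _)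
        · refine (mul_le_mul_of_nonneg_left d3 P.hlam.le).trans
            ((hC' _ (Real.log_nonpos (norm_nonneg _) w1.le)).trans ?_)
          gcongr
          exact le_max_right _ _
      have h2 := Real.exp_le_exp.mpr h1
      rw [exp_uu P.hL w0 w1] at h2
      linarith [Real.exp_pos (lam * C)]

lemma f_image {s : ℝ} (hs : lam * s = m) (T : Set ℂ) (h0 : (0 : ℂ) ∉ T)
    (h1 : ∀ t, 0 < t → t ≤ 1 → ∀ W : ℂ, ‖W‖ ^ 2 = t ^ 2 * (1 + (t ^ s) ^ 2) →
      (σ • W ∈ T ↔ σ * t < W.re))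
    (h2 : ∀ W : ℂ, 2 ≤ ‖W‖ ^ 2 → (σ • W ∈ T ↔ ‖W‖ ^ 2 + e < 2 * c * W.re)) :
    P.f '' Metric.ball 0 1 = T := by
  have key : ∀ z, z ∈ Metric.ball (0 : ℂ) 1 ↔ P.f z ∈ T := by
    intro z
    rw [mem_ball_zero_iff, P.f_apply]
    by_cases hw : z + 1 = 0
    · rw [hw, P.F_zero, smul_zero, eq_neg_of_add_eq_zero_left hw]
      simp [h0]
    · rcases P.image_cases hs hw with ⟨t, t0, t1, a1, a2⟩ | ⟨a1, a2⟩
      · rw [h1 t t0 t1 _ a1, ← a2, add_sub_cancel_right]
      · rw [h2 _ a1, ← a2, add_sub_cancel_right]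
  ext W
  constructor
  · rintro ⟨z, hz, rfl⟩
    exact (key z).mp hz
  · intro hW
    refine ⟨P.f.symm W, (key _).mpr ?_, P.f.apply_symm_apply W⟩
    rwa [P.f.apply_symm_apply]

end Params

lemma params_out {lam s L0 : ℝ} {m : ℕ} (hlam : 0 < lam) (hm : 1 ≤ m) (hs : 0 < s) (hL : 2 ≤ L0) :
    Params lam m L0 (s + 2) (2 * s + 2) 1 := by
  refine ⟨hlam, hm, hL, by linarith, by nlinarith, ?_, Or.inl rfl, by ring⟩
  have h1 : 3 / 2 ≤ rho3 (s + 2) (2 * s + 2) l2 := by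
    unfold rho3
    rw [exp_l2]
    have := Real.sqrt_nonneg (((s + 2) * (3 / 2)) ^ 2 - 4 * (2 * s + 2))
    linarith
  nlinarith

lemma params_in {lam s L0 : ℝ} {m : ℕ} (hlam : 0 < lam) (hm : 1 ≤ m) (hs : 0 < s) (hL : 2 ≤ L0) :
    Params lam m L0 s (-(2 * s + 2)) (-1) := by
  have he : 2 * -(2 * s + 2) ≤ s ^ 2 := by nlinarith
  refine ⟨hlam, hm, hL, hs, he, ?_, Or.inr rfl, by ring⟩
  have h1 := rho3_eq hs he le_rfl
  have h2 := rho3_pos hs (-(2 * s + 2)) l2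
  have h3 : 0 < s * Real.exp l2 * rho3 s (-(2 * s + 2)) l2 := by positivity
  linarith

lemma image_out {lam s L0 : ℝ} {m : ℕ} (hs : 0 < s) (P : Params lam m L0 (s + 2) (2 * s + 2) 1)
    (h : lam * s = m) : P.f '' Metric.ball 0 1 = outCusp s := by
  refine P.f_image h _ (zero_notMem_out hs) (fun t t0 t1 W hW => ?_) (fun W hW => ?_)
  · rw [one_smul, one_mul]
    exact out1 hs t0 t1 W hW
  · rw [one_smul]
    exact out2 hs W hW

lemma image_in {lam s L0 : ℝ} {m : ℕ} (hs : 0 < s) (P : Params lam m L0 s (-(2 * s + 2)) (-1))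
    (h : lam * s = m) : P.f '' Metric.ball 0 1 = inCusp s := by
  refine P.f_image h _ (zero_notMem_in s) (fun t t0 t1 W hW => ?_) (fun W hW => ?_)
  · rw [neg_one_smul, in1 hs t0 t1 (-W) (by rwa [norm_neg]), Complex.neg_re]
    constructor <;> intro h <;> linarith
  · rw [neg_one_smul, in2 hs (-W) (by rwa [norm_neg]), Complex.neg_re, neg_neg, norm_neg]

lemma narrow_one {L0 x : ℝ} (hL : 2 ≤ L0) (hx : x ≤ 0) : uu L0 x * tau L0 x ^ 1 = uu L0 0 := by
  have := one_le_uu hL hx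
  rw [pow_one, tau]
  field_simp

lemma narrow_two {lam : ℝ} (hlam : 0 < lam) : ∃ L0, 2 ≤ L0 ∧ ∃ C, ∀ x ≤ 0,
    lam * (16 * (1 + (2 : ℕ) / lam) ^ 2 * (lam + (2 : ℕ)) / (uu L0 x * tau L0 x ^ 2) +
      24 * uu L0 0 / lam) ≤ 2 * uu L0 x + C := by
  set Q := 16 * (1 + ((2 : ℕ) : ℝ) / lam) ^ 2 * (lam + (2 : ℕ)) with hQ
  have hQ0 : 0 ≤ lam * Q := by positivity
  have hL : 2 ≤ 2 + 2 * (lam * Q) := by linarith
  refine ⟨2 + 2 * (lam * Q), hL, lam * (24 * uu (2 + 2 * (lam * Q)) 0 / lam), fun x hx => ?_⟩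
  have h1 := half_le_uu hL le_rfl
  have h2 := one_le_uu hL hx
  rw [mul_add, tau]
  generalize uu (2 + 2 * (lam * Q)) x = u at *
  generalize uu (2 + 2 * (lam * Q)) 0 = u0 at *
  have h3 : 0 < u0 := by linarith
  have e : lam * (Q / (u * (u0 / u) ^ 2)) = lam * Q / u0 ^ 2 * u := by field_simp
  have h4 : lam * Q / u0 ^ 2 ≤ 2 := by
    rw [div_le_iff₀ (by positivity)]
    nlinarith
  rw [e]
  gcongr

theorem exists_Q1_out {s : ℝ} (hs : 0 < s) : ∃ (f : ℂ ≃ₜ ℂ) (D : ℂ → ℂ →L[ℝ] ℂ),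
    FiniteDistortion f D ∧
      LocallyIntegrable (fun z => Real.exp (2 / s * distortion D z)) volume ∧
      f '' Metric.ball 0 1 = outCusp s := by
  have hlam : 0 < 2 / s := by positivity
  obtain ⟨L0, hL, hn⟩ := narrow_two hlam
  have P := params_out (m := 2) hlam (by norm_num) hs hL
  obtain ⟨h1, h2⟩ := P.f_main hn
  exact ⟨P.f, _, h1, h2, image_out hs P (by push_cast; field_simp)⟩

theorem exists_Q1_in {s : ℝ} (hs : 0 < s) : ∃ (f : ℂ ≃ₜ ℂ) (D : ℂ → ℂ →L[ℝ] ℂ),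
    FiniteDistortion f D ∧
      LocallyIntegrable (fun z => Real.exp (2 / s * distortion D z)) volume ∧
      f '' Metric.ball 0 1 = inCusp s := by
  have hlam : 0 < 2 / s := by positivity
  obtain ⟨L0, hL, hn⟩ := narrow_two hlam
  have P := params_in (m := 2) hlam (by norm_num) hs hL
  obtain ⟨h1, h2⟩ := P.f_main hn
  exact ⟨P.f, _, h1, h2, image_in hs P (by push_cast; field_simp)⟩

theorem exists_Q2 {s : ℝ} (hs : 0 < s) : ∃ (f : ℂ ≃ₜ ℂ) (D : ℂ → ℂ →L[ℝ] ℂ),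
    FiniteDistortion f D ∧
      LocallyIntegrable (fun z => Real.exp (1 / s * distortion D z)) volume ∧
      MemLp (distortion D) ⊤ (volume.restrict (Metric.ball 0 1)) ∧
      f '' Metric.ball 0 1 = outCusp s := by
  have hlam : 0 < 1 / s := by positivity
  have hL : (2 : ℝ) ≤ 2 := le_rfl
  have P := params_out (m := 1) hlam le_rfl hs hL
  set B := 16 * (1 + ((1 : ℕ) : ℝ) / (1 / s)) ^ 2 * (1 / s + (1 : ℕ)) / uu 2 0 +
    24 * uu 2 0 / (1 / s) with hB
  obtain ⟨h1, h2⟩ := P.f_main ⟨1 / s * B, fun x hx => by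
    rw [narrow_one hL hx, ← hB]
    linarith [one_le_uu hL hx]⟩
  refine ⟨P.f, _, h1, h2, ?_, image_out hs P (by push_cast; field_simp)⟩
  obtain ⟨C, hC⟩ := P.f_bound
  refine memLp_top_of_bound (measurable_distortion _).aestronglyMeasurable (max C B) ?_
  have hae : ∀ᵐ z, z ∉ badSet := measure_eq_zero_iff_ae_notMem.mp
    (null_of_lines _ badSet_measurable badSet_vertical)
  rw [ae_restrict_iff' measurableSet_ball]
  filter_upwards [hae] with z hz hb
  obtain ⟨D, d1, d2, d3⟩ := hC z hz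
  rw [distortion, d1.fderiv, if_pos d2, Real.norm_eq_abs, abs_of_nonneg (by positivity)]
  rcases d3 with d3 | ⟨w0, w1, d3 | d3⟩
  · exact d3.trans (le_max_left _ _)
  · have := d3.1.mp rfl
    rw [mem_ball_zero_iff] at hb
    linarith
  · rw [narrow_one hL (Real.log_nonpos (norm_nonneg _) w1.le)] at d3
    exact d3.trans (le_max_right _ _)

end Pool.Agent.MP_8a3eee_an
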